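import Mathlib

set_option autoImplicit false

/-!
Monotone tuples and symmetric powers; for a monotone tuple whose multiset of values is invariant
under an involution there is exactly one compatible involution of the index set.
-/

namespace Pool.Agent.Y348.GB

open Finset

variable {n : ℕ} {K : Type*}

theorem map_comp_perm (f : Fin n → K) (τ : Equiv.Perm (Fin n)) :
    (Finset.univ : Finset (Fin n)).val.map (f ∘ τ) = (Finset.univ : Finset (Fin n)).val.map f := by
  rw [Fin.univ_val_map, Fin.univ_val_map]
  exact Multiset.coe_eq_coe.mpr (τ.ofFn_comp_perm f)

theorem mono_eq_of_map_eq [LinearOrder K] {f g : Fin n → K} (hf : Monotone f) (hg : Monotone g)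
    (h : (Finset.univ : Finset (Fin n)).val.map f = (Finset.univ : Finset (Fin n)).val.map g) :
    f = g := by
  rw [Fin.univ_val_map, Fin.univ_val_map] at h
  exact List.ofFn_injective ((Multiset.coe_eq_coe.mp h).eq_of_pairwise'
    hf.sortedLE_ofFn.pairwise hg.sortedLE_ofFn.pairwise)

/-- the multiset of values of a tuple as an element of the symmetric power -/
def toSym (g : Fin n → K) : Sym K n :=
  ⟨(Finset.univ : Finset (Fin n)).val.map g, by simp⟩

theorem exists_tuple (s : Sym K n) : ∃ f : Fin n → K, toSym f = s := by
  obtain ⟨m, hm⟩ := s
  induction m using Quotient.inductionOn with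
  | h l =>
    have hl : l.length = n := by simpa using hm
    subst hl
    refine ⟨l.get, ?_⟩
    unfold toSym
    apply Subtype.ext
    simp only [Fin.univ_val_map, List.ofFn_get]
    rfl

theorem mono_bij [LinearOrder K] :
    Function.Bijective (fun g : {g : Fin n → K // Monotone g} => toSym g.1) := by
  constructor
  · intro g h hgh
    apply Subtype.ext
    apply mono_eq_of_map_eq g.2 h.2
    exact congrArg Subtype.val hgh
  · intro s
    obtain ⟨f, hf⟩ := exists_tuple s
    refine ⟨⟨f ∘ Tuple.sort f, Tuple.monotone_sort f⟩, ?_⟩
    rw [← hf]
    apply Subtype.ext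
    exact map_comp_perm f _

/-- number of monotone tuples -/
theorem card_mono [Fintype K] [LinearOrder K] [Fintype {g : Fin n → K // Monotone g}] :
    Fintype.card {g : Fin n → K // Monotone g} = (Fintype.card K).multichoose n := by
  classical
  rw [Fintype.card_of_bijective (mono_bij (n := n) (K := K)), Sym.card_sym_eq_multichoose]

/-- A monotone tuple with a compatible involution of the index set. -/
structure Valid [LinearOrder K] (ι : K → K) (s : K → Bool) (g : Fin n → K)
    (σ : Equiv.Perm (Fin n)) : Prop where
  mono : Monotone g
  invol : ∀ i, σ (σ i) = i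
  swap : ∀ i, g (σ i) = ι (g i)
  fib : ∀ i j, i < j → g i = g j → (s (g i) = true → σ j < σ i) ∧ (s (g i) = false → σ i < σ j)

section

variable [LinearOrder K] (ι : K → K) (s : K → Bool) (hι : ∀ x, ι (ι x) = x)
  (hs : ∀ x, s (ι x) = s x)

/-- the sorting key -/
def key (g : Fin n → K) (i : Fin n) : K ×ₗ ℤ :=
  toLex (ι (g i), if s (g i) = true then -(i.val : ℤ) else (i.val : ℤ))

include hι in
theorem valid_inv {g : Fin n → K} {σ : Equiv.Perm (Fin n)} (h : Valid ι s g σ) :
    ((Finset.univ : Finset (Fin n)).val.map g).map ι
      = (Finset.univ : Finset (Fin n)).val.map g := by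
  have _ := hι
  have h1 : ι ∘ g = g ∘ σ := by
    funext i
    exact (h.swap i).symm
  rw [Multiset.map_map, h1, map_comp_perm]

include hι hs in
theorem valid_unique {g : Fin n → K} {σ : Equiv.Perm (Fin n)} (h : Valid ι s g σ) :
    σ = Tuple.sort (key ι s g) := by
  have hkey : ∀ i, key ι s g (σ i) =
      toLex (g i, if s (g i) = true then -((σ i).val : ℤ) else ((σ i).val : ℤ)) := by
    intro i
    unfold key
    rw [h.swap i, hι, hs]
  rw [Tuple.eq_sort_iff]
  constructor
  · intro i j hij
    rcases hij.eq_or_lt with rfl | hij
    · exact le_refl _
    · simp only [Function.comp_apply]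
      rw [hkey, hkey, Prod.Lex.toLex_le_toLex]
      rcases (h.mono hij.le).eq_or_lt with he | hl
      · right
        refine ⟨he, ?_⟩
        have hf := h.fib i j hij he
        rw [← he]
        by_cases hsg : s (g i) = true
        · simp only [hsg, if_true]
          have := hf.1 hsg
          have h2 : (σ j).val < (σ i).val := this
          omega
        · have hsg' : s (g i) = false := by simpa using hsg
          have := hf.2 hsg'
          have h2 : (σ i).val < (σ j).val := this
          simp only [hsg']
          simp only [Bool.false_eq_true, if_false]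
          omega
      · left
        exact hl
  · intro i j hij hk
    rw [hkey, hkey] at hk
    have h1 := congrArg (fun x => (ofLex x).1) hk
    have h2 := congrArg (fun x => (ofLex x).2) hk
    simp only [ofLex_toLex] at h1 h2
    rw [← h1] at h2
    exfalso
    have h3 : σ i = σ j := by
      apply Fin.ext
      by_cases hsg : s (g i) = true
      · simp only [hsg, if_true] at h2
        omega
      · have hsg' : s (g i) = false := by simpa using hsg
        simp only [hsg', Bool.false_eq_true, if_false] at h2
        omega
    exact absurd (σ.injective h3) hij.ne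

include hι hs in
theorem valid_exists {g : Fin n → K} (hg : Monotone g)
    (hinv : ((Finset.univ : Finset (Fin n)).val.map g).map ι
      = (Finset.univ : Finset (Fin n)).val.map g) :
    Valid ι s g (Tuple.sort (key ι s g)) := by
  set τ := Tuple.sort (key ι s g) with hτ
  have hmono : Monotone (key ι s g ∘ τ) := Tuple.monotone_sort _
  -- first components
  have hm1 : Monotone ((ι ∘ g) ∘ τ) := by
    intro i j hij
    have h := hmono hij
    simp only [Function.comp_apply, key] at h
    rw [Prod.Lex.toLex_le_toLex] at h
    rcases h with h | h
    · exact le_of_lt h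
    · exact le_of_eq h.1
  have heq : (ι ∘ g) ∘ τ = g := by
    apply mono_eq_of_map_eq hm1 hg
    rw [map_comp_perm, ← Multiset.map_map]
    exact hinv
  have hswap : ∀ i, g (τ i) = ι (g i) := by
    intro i
    have h := congrFun heq i
    simp only [Function.comp_apply] at h
    rw [← h, hι]
  have hkey : ∀ i, key ι s g (τ i) =
      toLex (g i, if s (g i) = true then -((τ i).val : ℤ) else ((τ i).val : ℤ)) := by
    intro i
    unfold key
    rw [hswap i, hι, hs]
  have hfib : ∀ i j, i < j → g i = g j →
      (s (g i) = true → τ j < τ i) ∧ (s (g i) = false → τ i < τ j) := by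
    intro i j hij he
    have h := hmono hij.le
    simp only [Function.comp_apply] at h
    rw [hkey, hkey, Prod.Lex.toLex_le_toLex] at h
    have hne : τ i ≠ τ j := fun h' => hij.ne (τ.injective h')
    have hne' : (τ i).val ≠ (τ j).val := fun h' => hne (Fin.ext h')
    rcases h with h | h
    · exact absurd he h.ne
    · obtain ⟨_, h2⟩ := h
      rw [← he] at h2
      constructor
      · intro hsg
        simp only [hsg, if_true] at h2
        show (τ j).val < (τ i).val
        omega
      · intro hsg
        simp only [hsg, Bool.false_eq_true, if_false] at h2
        show (τ i).val < (τ j).val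
        omega
  -- swap for the inverse
  have hswap' : ∀ i, g (τ.symm i) = ι (g i) := by
    intro i
    have h := hswap (τ.symm i)
    rw [Equiv.apply_symm_apply] at h
    rw [h, hι]
  have hkey' : ∀ i, key ι s g (τ.symm i) =
      toLex (g i, if s (g i) = true then -((τ.symm i).val : ℤ) else ((τ.symm i).val : ℤ)) := by
    intro i
    unfold key
    rw [hswap' i, hι, hs]
  have hfib' : ∀ i j, i < j → g i = g j →
      (s (g i) = true → τ.symm j < τ.symm i) ∧ (s (g i) = false → τ.symm i < τ.symm j) := by
    intro i j hij he
    have hne : τ.symm i ≠ τ.symm j := fun h' => hij.ne (τ.symm.injective h')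
    have he' : g (τ.symm i) = g (τ.symm j) := by rw [hswap', hswap', he]
    have hsi : s (g (τ.symm i)) = s (g i) := by rw [hswap', hs]
    have hsj : s (g (τ.symm j)) = s (g i) := by rw [hswap', hs, he]
    constructor
    · intro hsg
      rcases lt_or_gt_of_ne hne with hlt | hgt
      · exfalso
        have h := (hfib _ _ hlt he').1 (by rw [hsi, hsg])
        simp only [Equiv.apply_symm_apply] at h
        exact absurd h (not_lt.mpr hij.le)
      · exact hgt
    · intro hsg
      rcases lt_or_gt_of_ne hne with hlt | hgt
      · exact hlt
      · exfalso
        have h := (hfib _ _ hgt he'.symm).2 (by rw [hsj, hsg])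
        simp only [Equiv.apply_symm_apply] at h
        exact absurd h (not_lt.mpr hij.le)
  have hsymm : τ.symm = Tuple.sort (key ι s g) := by
    rw [Tuple.eq_sort_iff]
    constructor
    · intro i j hij
      rcases hij.eq_or_lt with rfl | hij
      · exact le_refl _
      · simp only [Function.comp_apply]
        rw [hkey', hkey', Prod.Lex.toLex_le_toLex]
        rcases (hg hij.le).eq_or_lt with he | hl
        · right
          refine ⟨he, ?_⟩
          have hf := hfib' i j hij he
          rw [← he]
          by_cases hsg : s (g i) = true
          · simp only [hsg, if_true]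
            have h2 : (τ.symm j).val < (τ.symm i).val := hf.1 hsg
            omega
          · have hsg' : s (g i) = false := by simpa using hsg
            have h2 : (τ.symm i).val < (τ.symm j).val := hf.2 hsg'
            simp only [hsg', Bool.false_eq_true, if_false]
            omega
        · left
          exact hl
    · intro i j hij hk
      rw [hkey', hkey'] at hk
      have h1 := congrArg (fun x => (ofLex x).1) hk
      have h2 := congrArg (fun x => (ofLex x).2) hk
      simp only [ofLex_toLex] at h1 h2
      rw [← h1] at h2
      exfalso
      have h3 : τ.symm i = τ.symm j := by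
        apply Fin.ext
        by_cases hsg : s (g i) = true
        · simp only [hsg, if_true] at h2
          omega
        · have hsg' : s (g i) = false := by simpa using hsg
          simp only [hsg', Bool.false_eq_true, if_false] at h2
          omega
      exact absurd (τ.symm.injective h3) hij.ne
  refine ⟨hg, ?_, hswap, hfib⟩
  intro i
  have h : τ.symm = τ := by rw [hsymm]
  calc τ (τ i) = τ (τ.symm i) := by rw [h]
    _ = i := Equiv.apply_symm_apply _ _

end

end Pool.Agent.Y348.GB
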