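import Mathlib
import Pool.Agent.Y348.GB.Sorting

set_option autoImplicit false

/-!
Counting monotone tuples with compatible involution.
-/

namespace Pool.Agent.Y348.GB

open Finset

section

variable {n : ℕ} {K : Type} [LinearOrder K] [Fintype K] (ι : K → K) (s : K → Bool)
  (hι : ∀ x, ι (ι x) = x) (hs : ∀ x, s (ι x) = s x)

/-- pairs (tuple, involution) -/
def VV (n : ℕ) : Type := {p : (Fin n → K) × Equiv.Perm (Fin n) // Valid ι s p.1 p.2}

/-- invariant weight functions -/
def Inv (n : ℕ) : Type := {P : K → ℕ // ∑ i, P i = n ∧ ∀ x, P (ι x) = P x}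

/-- the weight function of a tuple -/
def wt (g : Fin n → K) (x : K) : ℕ := ((Finset.univ : Finset (Fin n)).val.map g).count x

omit [Fintype K] in
theorem wt_def' (g : Fin n → K) :
    wt g = fun x => ((Finset.univ : Finset (Fin n)).val.map g).count x := rfl

theorem sum_wt (g : Fin n → K) : ∑ x, wt g x = n := by
  have h : ∑ x : K, ((Finset.univ : Finset (Fin n)).val.map g).count x
      = Multiset.card ((Finset.univ : Finset (Fin n)).val.map g) :=
    Multiset.sum_count_eq_card (s := Finset.univ) (fun a _ => Finset.mem_univ a)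
  unfold wt
  rw [h]
  simp

omit [Fintype K] in
include hι in
theorem inv_iff (g : Fin n → K) :
    ((Finset.univ : Finset (Fin n)).val.map g).map ι
      = (Finset.univ : Finset (Fin n)).val.map g ↔ ∀ x, wt g (ι x) = wt g x := by
  have hinj : Function.Injective ι := fun a b h => by
    rw [← hι a, ← hι b, h]
  have hcount : ∀ x, Multiset.count x (((Finset.univ : Finset (Fin n)).val.map g).map ι)
      = wt g (ι x) := by
    intro x
    have : x = ι (ι x) := (hι x).symm
    conv_lhs => rw [this]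
    rw [Multiset.count_map_eq_count' ι _ hinj]
    rfl
  constructor
  · intro h x
    rw [← hcount, h]
    rfl
  · intro h
    ext x
    rw [hcount, h x]
    rfl

omit [Fintype K] in
theorem wt_injective {g h : Fin n → K} (hg : Monotone g) (hh : Monotone h) (he : wt g = wt h) :
    g = h := by
  apply mono_eq_of_map_eq hg hh
  ext x
  exact congrFun he x

theorem wt_surj (P : K → ℕ) (hP : ∑ i, P i = n) : ∃ g : Fin n → K, Monotone g ∧ wt g = P := by
  obtain ⟨⟨g, hg⟩, hgs⟩ := (mono_bij (n := n) (K := K)).2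
    ((Sym.equivNatSumOfFintype K n).symm ⟨P, hP⟩)
  refine ⟨g, hg, ?_⟩
  have h1 : Sym.equivNatSumOfFintype K n (toSym g) = ⟨P, hP⟩ := by
    simp only at hgs
    rw [hgs, Equiv.apply_symm_apply]
  funext x
  have h2 := congrArg (fun Q : {P : K → ℕ // ∑ i, P i = n} => (Q : K → ℕ) x) h1
  simp only [Sym.coe_equivNatSumOfFintype_apply_apply] at h2
  exact h2

include hι hs in
theorem VV_equiv (n : ℕ) : Nonempty (VV ι s n ≃ Inv ι n) := by
  refine ⟨Equiv.ofBijective
    (fun p => ⟨wt p.1.1, sum_wt _, (inv_iff ι hι _).1 (valid_inv ι s hι p.2)⟩) ⟨?_, ?_⟩⟩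
  · rintro ⟨⟨g, σ⟩, hp⟩ ⟨⟨h, τ⟩, hq⟩ heq
    have h1 : wt g = wt h := congrArg Subtype.val heq
    have h2 : g = h := wt_injective hp.mono hq.mono h1
    subst h2
    have h3 : σ = τ := (valid_unique ι s hι hs hp).trans (valid_unique ι s hι hs hq).symm
    subst h3
    rfl
  · rintro ⟨P, hP, hPι⟩
    obtain ⟨g, hg, hgP⟩ := wt_surj P hP
    have hinv := (inv_iff ι hι g).2 (by rw [hgP]; exact hPι)
    refine ⟨⟨(g, _), valid_exists ι s hι hs hg hinv⟩, ?_⟩
    apply Subtype.ext
    exact hgP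

end

section counting

variable {K : Type} [Fintype K] (ι : K → K) (hι : ∀ x, ι (ι x) = x)
  {F D : Type} [Fintype F] [Fintype D]
  (e : K ≃ F ⊕ (D × Bool))
  (he1 : ∀ f, ι (e.symm (Sum.inl f)) = e.symm (Sum.inl f))
  (he2 : ∀ d b, ι (e.symm (Sum.inr (d, b))) = e.symm (Sum.inr (d, !b)))

include he1 he2 in
theorem Inv_equiv (n : ℕ) : Nonempty (Inv ι n ≃
    {q : (F → ℕ) × (D → ℕ) // ∑ f, q.1 f + 2 * ∑ d, q.2 d = n}) := by
  have key : ∀ P : K → ℕ, ∑ x, P x = ∑ f, P (e.symm (Sum.inl f)) +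
      (∑ d, P (e.symm (Sum.inr (d, false))) + ∑ d, P (e.symm (Sum.inr (d, true)))) := by
    intro P
    rw [← e.symm.sum_comp P, Fintype.sum_sum_type, Fintype.sum_prod_type]
    congr 1
    rw [← Finset.sum_add_distrib]
    apply Finset.sum_congr rfl
    intro d _
    rw [Fintype.sum_bool, add_comm]
  refine ⟨⟨fun P => ⟨(fun f => P.1 (e.symm (Sum.inl f)),
      fun d => P.1 (e.symm (Sum.inr (d, false)))), ?_⟩,
    fun q => ⟨fun x => Sum.elim q.1.1 (fun y => q.1.2 y.1) (e x), ?_, ?_⟩, ?_, ?_⟩⟩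
  · obtain ⟨P, hP, hPι⟩ := P
    simp only
    rw [key] at hP
    have : ∀ d, P (e.symm (Sum.inr (d, true))) = P (e.symm (Sum.inr (d, false))) := by
      intro d
      rw [← hPι (e.symm (Sum.inr (d, true))), he2]
      rfl
    rw [Finset.sum_congr rfl (fun d _ => this d)] at hP
    omega
  · obtain ⟨⟨A, B⟩, hq⟩ := q
    rw [key]
    simp only [Equiv.apply_symm_apply, Sum.elim_inl, Sum.elim_inr]
    simp only at hq
    omega
  · obtain ⟨⟨A, B⟩, hq⟩ := q
    intro x
    simp only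
    obtain ⟨y, rfl⟩ := e.symm.surjective x
    rcases y with f | ⟨d, b⟩
    · rw [he1]
    · rw [he2]
      simp only [Equiv.apply_symm_apply, Sum.elim_inr]
  · rintro ⟨P, hP, hPι⟩
    apply Subtype.ext
    funext x
    simp only
    obtain ⟨y, rfl⟩ := e.symm.surjective x
    rcases y with f | ⟨d, b⟩
    · simp only [Equiv.apply_symm_apply, Sum.elim_inl]
    · simp only [Equiv.apply_symm_apply, Sum.elim_inr]
      cases b
      · rfl
      · rw [← hPι (e.symm (Sum.inr (d, true))), he2]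
        rfl
  · rintro ⟨⟨A, B⟩, hq⟩
    apply Subtype.ext
    simp only [Equiv.apply_symm_apply, Sum.elim_inl, Sum.elim_inr]

/-- pairs of weight functions sorted by the weight of the second one -/
theorem pair_equiv (n : ℕ) : Nonempty (
    {q : (F → ℕ) × (D → ℕ) // ∑ f, q.1 f + 2 * ∑ d, q.2 d = n} ≃
    Σ j : Fin (n / 2 + 1), {A : F → ℕ // ∑ f, A f = n - 2 * j.val} × {B : D → ℕ // ∑ d, B d = j.val}) := by
  refine ⟨⟨fun q => ⟨⟨∑ d, q.1.2 d, ?_⟩, ⟨q.1.1, ?_⟩, ⟨q.1.2, ?_⟩⟩,
    fun r => ⟨(r.2.1.1, r.2.2.1), ?_⟩, ?_, ?_⟩⟩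
  · have := q.2
    omega
  · have := q.2
    simp only
    omega
  · rfl
  · have h1 := r.2.1.2
    have h2 := r.2.2.2
    have h3 := r.1.2
    simp only
    omega
  · rintro ⟨⟨A, B⟩, hq⟩
    rfl
  · rintro ⟨⟨j, hj⟩, ⟨A, hA⟩, ⟨B, hB⟩⟩
    simp only at hB
    subst hB
    rfl

theorem card_fun_sum (T : Type) [Fintype T] (i : ℕ) [Fintype {A : T → ℕ // ∑ f, A f = i}] :
    Fintype.card {A : T → ℕ // ∑ f, A f = i} = (Fintype.card T).multichoose i := by
  classical
  rw [← Sym.card_sym_eq_multichoose]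
  exact Fintype.card_congr (Sym.equivNatSumOfFintype T i).symm

end counting

/-- the counting sequence: `mc f d n` is the coefficient of `t^n` in `(1-t)^(-f) (1-t^2)^(-d)` -/
def mc (f d n : ℕ) : ℕ :=
  ∑ j ∈ range (n / 2 + 1), f.multichoose (n - 2 * j) * d.multichoose j

instance finFS (T : Type) [Fintype T] (i : ℕ) : Finite {A : T → ℕ // ∑ f, A f = i} := by
  classical
  exact Finite.of_equiv _ (Sym.equivNatSumOfFintype T i)

theorem VV_card {n : ℕ} {K : Type} [LinearOrder K] [Fintype K] (ι : K → K) (s : K → Bool)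
    (hι : ∀ x, ι (ι x) = x) (hs : ∀ x, s (ι x) = s x)
    {F D : Type} [Fintype F] [Fintype D]
    (e : K ≃ F ⊕ (D × Bool))
    (he1 : ∀ f, ι (e.symm (Sum.inl f)) = e.symm (Sum.inl f))
    (he2 : ∀ d b, ι (e.symm (Sum.inr (d, b))) = e.symm (Sum.inr (d, !b))) :
    Nat.card (VV ι s n) = mc (Fintype.card F) (Fintype.card D) n := by
  classical
  obtain ⟨e1⟩ := VV_equiv ι s hι hs n
  obtain ⟨e2⟩ := Inv_equiv ι e he1 he2 n
  obtain ⟨e3⟩ := pair_equiv (F := F) (D := D) n
  rw [Nat.card_congr (e1.trans (e2.trans e3))]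
  rw [Nat.card_sigma]
  have h : ∀ j : Fin (n / 2 + 1), Nat.card ({A : F → ℕ // ∑ f, A f = n - 2 * j.val} ×
      {B : D → ℕ // ∑ d, B d = j.val})
      = (Fintype.card F).multichoose (n - 2 * j.val) * (Fintype.card D).multichoose j.val := by
    intro j
    have := Fintype.ofFinite {A : F → ℕ // ∑ f, A f = n - 2 * j.val}
    have := Fintype.ofFinite {B : D → ℕ // ∑ d, B d = j.val}
    rw [Nat.card_prod, Nat.card_eq_fintype_card, Nat.card_eq_fintype_card, card_fun_sum,
      card_fun_sum]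
  rw [Finset.sum_congr rfl (fun j _ => h j)]
  unfold mc
  rw [Finset.sum_range]

end Pool.Agent.Y348.GB
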