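import Mathlib
import Pool.Agent.Y348.GB.Counting

set_option autoImplicit false

/-!
Recurrence for the counting sequence.
-/

namespace Pool.Agent.Y348.GB

open Finset PowerSeries

theorem multichoose_rec (f i : ℕ) :
    (i + 1) * f.multichoose (i + 1) = (f + i) * f.multichoose i := by
  rw [Nat.multichoose_eq, Nat.multichoose_eq]
  rcases Nat.eq_zero_or_pos f with rfl | hf
  · rcases Nat.eq_zero_or_pos i with rfl | hi
    · simp
    · have h1 : (0 + i - 1).choose i = 0 := Nat.choose_eq_zero_of_lt (by omega)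
      have h2 : (0 + (i + 1) - 1).choose (i + 1) = 0 := Nat.choose_eq_zero_of_lt (by omega)
      rw [h1, h2]
      ring
  · obtain ⟨g, rfl⟩ : ∃ g, f = g + 1 := ⟨f - 1, by omega⟩
    have e1 : g + 1 + (i + 1) - 1 = g + i + 1 := by omega
    have e2 : g + 1 + i - 1 = g + i := by omega
    rw [e1, e2]
    have h := Nat.add_one_mul_choose_eq (g + i) i
    -- (g+i+1) * choose (g+i) i = choose (g+i+1) (i+1) * (i+1)
    rw [mul_comm (i + 1), ← h]
    ring

/-- `(1-t)^(-f)` -/
noncomputable def serA (f : ℕ) : ℚ⟦X⟧ := PowerSeries.mk (fun i => (f.multichoose i : ℚ))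

/-- `(1-t^2)^(-d)` -/
noncomputable def serB (d : ℕ) : ℚ⟦X⟧ :=
  PowerSeries.mk (fun k => if k % 2 = 0 then (d.multichoose (k / 2) : ℚ) else 0)

theorem serA_ode (f : ℕ) :
    (1 - X) * d⁄dX ℚ (serA f) = (f : ℚ⟦X⟧) * serA f := by
  ext i
  rw [sub_mul, one_mul, map_sub]
  have hc : (f : ℚ⟦X⟧) = C (f : ℚ) := by simp
  rw [hc, coeff_C_mul]
  cases i with
  | zero =>
    rw [coeff_zero_X_mul, coeff_derivative]
    simp only [serA, coeff_mk]
    have h := multichoose_rec f 0
    have h' : (((0 : ℕ) : ℚ) + 1) * (f.multichoose (0 + 1) : ℚ) = ((f : ℚ) + (0 : ℕ)) * f.multichoose 0 := by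
      exact_mod_cast h
    push_cast at h' ⊢
    linarith
  | succ i =>
    rw [coeff_succ_X_mul, coeff_derivative, coeff_derivative]
    simp only [serA, coeff_mk]
    have h := multichoose_rec f (i + 1)
    have h' : (((i + 1 : ℕ) : ℚ) + 1) * (f.multichoose (i + 1 + 1) : ℚ)
        = ((f : ℚ) + (i + 1 : ℕ)) * f.multichoose (i + 1) := by
      exact_mod_cast h
    push_cast at h' ⊢
    linarith

theorem serB_ode (d : ℕ) :
    (1 - X ^ 2) * d⁄dX ℚ (serB d) = (2 * d : ℚ⟦X⟧) * (X * serB d) := by
  ext i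
  rw [sub_mul, one_mul, map_sub]
  have hc : (2 * d : ℚ⟦X⟧) = C (2 * d : ℚ) := by
    rw [map_mul, map_natCast, map_ofNat]
  rw [hc, coeff_C_mul]
  rw [coeff_X_pow_mul', coeff_derivative]
  cases i with
  | zero =>
    rw [coeff_zero_X_mul]
    simp [serB]
  | succ i =>
    rw [coeff_succ_X_mul]
    rcases Nat.even_or_odd' i with ⟨j, hj | hj⟩
    · -- i = 2j
      have hcase : (if 2 ≤ i + 1 then coeff (i + 1 - 2) (d⁄dX ℚ (serB d)) else 0)
          = (2 * j : ℚ) * d.multichoose j := by
        rcases Nat.eq_zero_or_pos j with rfl | hjp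
        · rw [if_neg (by omega)]
          simp
        · rw [if_pos (by omega), coeff_derivative]
          have e1 : i + 1 - 2 + 1 = 2 * j := by omega
          rw [e1]
          simp only [serB, coeff_mk]
          rw [if_pos (by omega)]
          have e2 : 2 * j / 2 = j := by omega
          have e3 : ((i + 1 - 2 : ℕ) : ℚ) + 1 = 2 * j := by
            have : (i + 1 - 2) + 1 = 2 * j := by omega
            exact_mod_cast this
          rw [e2, e3]
          ring
      rw [hcase]
      simp only [serB, coeff_mk]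
      rw [if_pos (by omega), if_pos (by omega)]
      have e1 : (i + 1 + 1) / 2 = j + 1 := by omega
      have e2 : i / 2 = j := by omega
      rw [e1, e2]
      have h := multichoose_rec d j
      have h' : ((j : ℚ) + 1) * (d.multichoose (j + 1) : ℚ) = ((d : ℚ) + j) * d.multichoose j := by
        exact_mod_cast h
      have e3 : (i : ℚ) = 2 * j := by exact_mod_cast hj
      push_cast
      rw [e3]
      linarith
    · -- i = 2j+1
      have hcase : (if 2 ≤ i + 1 then coeff (i + 1 - 2) (d⁄dX ℚ (serB d)) else 0)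
          = 0 := by
        rw [if_pos (by omega), coeff_derivative]
        simp only [serB, coeff_mk]
        rw [if_neg (by omega)]
        ring
      rw [hcase]
      simp only [serB, coeff_mk]
      rw [if_neg (by omega), if_neg (by omega)]
      ring

theorem coeff_prod (f d n : ℕ) : coeff n (serA f * serB d) = (mc f d n : ℚ) := by
  rw [coeff_mul]
  unfold mc
  push_cast
  rw [Finset.Nat.sum_antidiagonal_eq_sum_range_succ_mk]
  simp only [serA, serB, coeff_mk]
  -- sum over k in range (n+1) of multichoose f k * [ (n-k) even ] ...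
  rw [← Finset.sum_range_reflect]
  have h1 : ∀ j ∈ Finset.range (n + 1),
      (f.multichoose (n + 1 - 1 - j) : ℚ) *
        (if (n - (n + 1 - 1 - j)) % 2 = 0 then (d.multichoose ((n - (n + 1 - 1 - j)) / 2) : ℚ) else 0)
      = if j % 2 = 0 then (f.multichoose (n - j) : ℚ) * d.multichoose (j / 2) else 0 := by
    intro j hj
    rw [Finset.mem_range] at hj
    have e1 : n + 1 - 1 - j = n - j := by omega
    have e2 : n - (n + 1 - 1 - j) = j := by omega
    rw [e2, e1]
    split_ifs <;> ring
  rw [Finset.sum_congr rfl h1, ← Finset.sum_filter]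
  symm
  apply Finset.sum_bij (fun j _ => 2 * j)
  · intro j hj
    rw [Finset.mem_range] at hj
    rw [Finset.mem_filter, Finset.mem_range]
    omega
  · intro a _ b _ h
    omega
  · intro b hb
    rw [Finset.mem_filter, Finset.mem_range] at hb
    refine ⟨b / 2, ?_, ?_⟩
    · rw [Finset.mem_range]
      omega
    · omega
  · intro j _
    have : 2 * j / 2 = j := by omega
    rw [this]

theorem mc_zero (f d : ℕ) : mc f d 0 = 1 := by
  simp [mc]

theorem mc_one (f d : ℕ) : mc f d 1 = f := by
  simp [mc]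

theorem mc_rec (f d n : ℕ) :
    ((n : ℚ) + 2) * mc f d (n + 2) = f * mc f d (n + 1) + ((n : ℚ) + f + 2 * d) * mc f d n := by
  have hode : (1 - X ^ 2) * d⁄dX ℚ (serA f * serB d)
      = ((f : ℚ⟦X⟧) * (1 + X) + 2 * (d : ℚ⟦X⟧) * X) * (serA f * serB d) := by
    have hA := serA_ode f
    have hB := serB_ode d
    have hd : d⁄dX ℚ (serA f * serB d)
        = serA f * d⁄dX ℚ (serB d) + serB d * d⁄dX ℚ (serA f) := by
      rw [Derivation.leibniz]
      rfl
    rw [hd]
    have e : (1 - X ^ 2) * (serA f * d⁄dX ℚ (serB d) + serB d * d⁄dX ℚ (serA f))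
        = serA f * ((1 - X ^ 2) * d⁄dX ℚ (serB d))
          + (1 + X) * serB d * ((1 - X) * d⁄dX ℚ (serA f)) := by ring
    rw [e, hA, hB]
    ring
  have hc := congrArg (coeff (n + 1)) hode
  rw [sub_mul, one_mul, map_sub, coeff_X_pow_mul', coeff_derivative, coeff_prod] at hc
  have e2 : ((f : ℚ⟦X⟧) * (1 + X) + 2 * (d : ℚ⟦X⟧) * X) * (serA f * serB d)
      = C (f : ℚ) * (serA f * serB d) + C ((f : ℚ) + 2 * d) * (X * (serA f * serB d)) := by
    simp only [map_add, map_mul, map_natCast, map_ofNat]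
    ring
  rw [e2, map_add, coeff_C_mul, coeff_C_mul, coeff_succ_X_mul, coeff_prod, coeff_prod] at hc
  have hcase : (if 2 ≤ n + 1 then coeff (n + 1 - 2) (d⁄dX ℚ (serA f * serB d)) else 0)
      = (n : ℚ) * mc f d n := by
    rcases Nat.eq_zero_or_pos n with rfl | hn
    · rw [if_neg (by omega)]
      simp
    · rw [if_pos (by omega), coeff_derivative]
      have e1 : n + 1 - 2 + 1 = n := by omega
      have e3 : ((n + 1 - 2 : ℕ) : ℚ) + 1 = n := by exact_mod_cast e1
      rw [e1, coeff_prod, e3]
      ring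
  rw [hcase] at hc
  push_cast at hc
  have e4 : n + 1 + 1 = n + 2 := rfl
  rw [e4] at hc
  linarith

end Pool.Agent.Y348.GB
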