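import Mathlib
import Pool.Agent.Y348.GB.Recur

set_option autoImplicit false

/-!
The gamma coefficients and the polynomial recurrence.
-/

namespace Pool.Agent.Y348.GB

open Finset

/-- the gamma coefficients -/
noncomputable def gam : ℕ → ℕ → ℚ
  | 0, i => if i = 0 then 1 else 0
  | 1, i => if i = 0 then 1 else 0
  | (n + 2), i => (1 / ((n : ℚ) + 2)) *
      ((2 * i + 1) * gam (n + 1) i + (2 * (i : ℚ) ^ 2 + 2 * i + n + 1) * gam n i
        + (if 1 ≤ i then 4 * ((n : ℚ) + 3 - 2 * i) * gam (n + 1) (i - 1)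
            + 4 * ((n : ℚ) * (2 * i - 1) - (i - 1) * (4 * i - 1)) * gam n (i - 1) else 0)
        + (if 2 ≤ i then 8 * ((n : ℚ) + 4 - 2 * i) * ((n : ℚ) + 3 - 2 * i) * gam n (i - 2) else 0))

theorem gam_rec (n i : ℕ) : ((n : ℚ) + 2) * gam (n + 2) i =
      ((2 * i + 1) * gam (n + 1) i + (2 * (i : ℚ) ^ 2 + 2 * i + n + 1) * gam n i
        + (if 1 ≤ i then 4 * ((n : ℚ) + 3 - 2 * i) * gam (n + 1) (i - 1)
            + 4 * ((n : ℚ) * (2 * i - 1) - (i - 1) * (4 * i - 1)) * gam n (i - 1) else 0)
        + (if 2 ≤ i then 8 * ((n : ℚ) + 4 - 2 * i) * ((n : ℚ) + 3 - 2 * i) * gam n (i - 2) else 0)) := by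
  rw [gam, ← mul_assoc]
  have h : ((n : ℚ) + 2) * (1 / ((n : ℚ) + 2)) = 1 := by
    field_simp
  rw [h, one_mul]

theorem gam_zero_of_lt : ∀ n i : ℕ, n < 2 * i → gam n i = 0 := by
  intro n
  induction n using Nat.strong_induction_on with
  | _ n ih =>
    intro i hi
    match n, ih, hi with
    | 0, _, hi =>
      rw [gam, if_neg (by omega)]
    | 1, _, hi =>
      rw [gam, if_neg (by omega)]
    | n + 2, ih, hi =>
      have hr := gam_rec n i
      have h1 : gam (n + 1) i = 0 := ih (n + 1) (by omega) i (by omega)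
      have h2 : gam n i = 0 := ih n (by omega) i (by omega)
      have h3 : gam n (i - 1) = 0 := ih n (by omega) (i - 1) (by omega)
      have h4 : ((n : ℚ) + 3 - 2 * i) * gam (n + 1) (i - 1) = 0 := by
        by_cases hc : n + 3 = 2 * i
        · have : (n : ℚ) + 3 = 2 * i := by exact_mod_cast hc
          rw [this, sub_self, zero_mul]
        · rw [ih (n + 1) (by omega) (i - 1) (by omega), mul_zero]
      have h5 : ((n : ℚ) + 4 - 2 * i) * ((n : ℚ) + 3 - 2 * i) * gam n (i - 2) = 0 := by
        by_cases hc : n + 3 = 2 * i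
        · have : (n : ℚ) + 3 = 2 * i := by exact_mod_cast hc
          rw [this, sub_self, mul_zero, zero_mul]
        · by_cases hc' : n + 4 = 2 * i
          · have : (n : ℚ) + 4 = 2 * i := by exact_mod_cast hc'
            rw [this, sub_self, zero_mul, zero_mul]
          · rw [ih n (by omega) (i - 2) (by omega), mul_zero]
      have h6 : ((n : ℚ) + 2) * gam (n + 2) i = 0 := by
        rw [hr, h1, h2, h3, if_pos (by omega)]
        have e1 : 4 * ((n : ℚ) + 3 - 2 * i) * gam (n + 1) (i - 1) = 0 := by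
          rw [mul_assoc, h4, mul_zero]
        have e2 : 8 * ((n : ℚ) + 4 - 2 * i) * ((n : ℚ) + 3 - 2 * i) * gam n (i - 2) = 0 := by
          have : 8 * ((n : ℚ) + 4 - 2 * i) * ((n : ℚ) + 3 - 2 * i) * gam n (i - 2)
              = 8 * (((n : ℚ) + 4 - 2 * i) * ((n : ℚ) + 3 - 2 * i) * gam n (i - 2)) := by ring
          rw [this, h5, mul_zero]
        rw [e1, e2]
        simp
      have h7 : (n : ℚ) + 2 ≠ 0 := by positivity
      exact (mul_eq_zero.mp h6).resolve_left h7

theorem gam_pos_aux : ∀ n : ℕ, (∀ i, 0 ≤ gam n i) ∧ (∀ i, 0 ≤ gam (n + 1) i) ∧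
    (∀ m, 1 ≤ m → n = 2 * m → (m : ℚ) * gam (2 * m) m ≤ 4 * gam (2 * m) (m - 1)) ∧
    (∀ m, 1 ≤ m → n + 1 = 2 * m → (m : ℚ) * gam (2 * m) m ≤ 4 * gam (2 * m) (m - 1)) := by
  intro n
  induction n with
  | zero =>
    refine ⟨?_, ?_, ?_, ?_⟩
    · intro i
      rw [gam]
      split_ifs <;> norm_num
    · intro i
      show 0 ≤ gam 1 i
      rw [gam]
      split_ifs <;> norm_num
    · intro m hm h
      omega
    · intro m hm h
      omega
  | succ n ih =>
    obtain ⟨h0, h1, q0, q1⟩ := ih
    refine ⟨h1, ?_, q1, ?_⟩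
    · intro i
      show 0 ≤ gam (n + 2) i
      by_cases hi : n + 2 < 2 * i
      · rw [gam_zero_of_lt _ _ hi]
      have hr := gam_rec n i
      have hn2 : (0 : ℚ) < (n : ℚ) + 2 := by positivity
      suffices hs : 0 ≤ ((n : ℚ) + 2) * gam (n + 2) i from
        nonneg_of_mul_nonneg_right hs hn2
      rw [hr]
      have a1 : 0 ≤ (2 * (i : ℚ) + 1) * gam (n + 1) i := mul_nonneg (by positivity) (h1 i)
      have a2 : 0 ≤ (2 * (i : ℚ) ^ 2 + 2 * i + n + 1) * gam n i :=
        mul_nonneg (by positivity) (h0 i)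
      by_cases hi1 : 1 ≤ i
      · rw [if_pos hi1]
        have hiq : (2 : ℚ) * i ≤ n + 2 := by
          have : 2 * i ≤ n + 2 := by omega
          exact_mod_cast this
        have a3 : 0 ≤ 4 * ((n : ℚ) + 3 - 2 * i) * gam (n + 1) (i - 1) :=
          mul_nonneg (by linarith) (h1 _)
        have a5 : 0 ≤ (if 2 ≤ i then
            8 * ((n : ℚ) + 4 - 2 * i) * ((n : ℚ) + 3 - 2 * i) * gam n (i - 2) else 0) := by
          split_ifs
          · apply mul_nonneg _ (h0 _)
            apply mul_nonneg <;> linarith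
          · exact le_refl _
        by_cases hc : n + 2 = 2 * i
        · -- critical case
          obtain ⟨m, rfl⟩ : ∃ m, i = m + 1 := ⟨i - 1, by omega⟩
          have hn : n = 2 * m := by omega
          subst hn
          have e1 : m + 1 - 1 = m := rfl
          rw [e1]
          rcases Nat.eq_zero_or_pos m with rfl | hm
          · have e2 : 4 * ((((2 * 0 : ℕ) : ℚ)) * (2 * ((0 + 1 : ℕ) : ℚ) - 1)
                - (((0 + 1 : ℕ) : ℚ) - 1) * (4 * ((0 + 1 : ℕ) : ℚ) - 1)) = 0 := by
              norm_num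
            rw [e2, zero_mul]
            have e1' : 0 + 1 - 1 = 0 := rfl
            rw [e1'] at a3
            linarith
          · rw [if_pos (by omega : 2 ≤ m + 1)]
            have e3 : m + 1 - 2 = m - 1 := by omega
            rw [e3]
            have hq := q0 m hm rfl
            have e4 : 4 * ((((2 * m : ℕ) : ℚ)) * (2 * ((m + 1 : ℕ) : ℚ) - 1)
                - (((m + 1 : ℕ) : ℚ) - 1) * (4 * ((m + 1 : ℕ) : ℚ) - 1)) = -4 * m := by
              push_cast
              ring
            have e5 : 8 * ((((2 * m : ℕ) : ℚ)) + 4 - 2 * ((m + 1 : ℕ) : ℚ)) *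
                ((((2 * m : ℕ) : ℚ)) + 3 - 2 * ((m + 1 : ℕ) : ℚ)) = 16 := by
              push_cast
              ring
            rw [e4, e5]
            have e6 : -4 * (m : ℚ) * gam (2 * m) m = -4 * ((m : ℚ) * gam (2 * m) m) := by ring
            rw [e6]
            rw [e1] at a3
            linarith
        · have hiq' : (2 : ℚ) * i ≤ n + 1 := by
            have : 2 * i ≤ n + 1 := by omega
            exact_mod_cast this
          have hi1' : (1 : ℚ) ≤ i := by exact_mod_cast hi1
          have a4 : 0 ≤ 4 * ((n : ℚ) * (2 * i - 1) - (i - 1) * (4 * i - 1)) * gam n (i - 1) := by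
            apply mul_nonneg _ (h0 _)
            nlinarith
          linarith
      · have hi0 : i = 0 := by omega
        subst hi0
        rw [if_neg (by omega), if_neg (by omega)]
        linarith
    · intro m hm hnm
      -- n + 2 = 2 m
      obtain ⟨k, rfl⟩ : ∃ k, m = k + 1 := ⟨m - 1, by omega⟩
      have hn : n = 2 * k := by omega
      subst hn
      have e0 : 2 * (k + 1) = 2 * k + 2 := by ring
      rw [e0]
      have e1 : k + 1 - 1 = k := rfl
      rw [e1]
      have hA := gam_rec (2 * k) (k + 1)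
      have hB := gam_rec (2 * k) k
      have z1 : gam (2 * k + 1) (k + 1) = 0 := gam_zero_of_lt _ _ (by omega)
      have z2 : gam (2 * k) (k + 1) = 0 := gam_zero_of_lt _ _ (by omega)
      rw [z1, z2, if_pos (by omega : 1 ≤ k + 1), e1] at hA
      rcases Nat.eq_zero_or_pos k with rfl | hk
      · rw [if_neg (by omega)] at hA
        rw [if_neg (by omega), if_neg (by omega)] at hB
        have g10 : gam (2 * 0 + 1) 0 = 1 := by
          show gam 1 0 = 1
          rw [gam]
          simp
        have g00 : gam (2 * 0) 0 = 1 := by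
          show gam 0 0 = 1
          rw [gam]
          simp
        rw [g10, g00] at hA hB
        push_cast at hA hB ⊢
        linarith
      · have hk2 : k + 1 - 2 = k - 1 := by omega
        rw [if_pos (by omega : 2 ≤ k + 1), hk2] at hA
        rw [if_pos (by omega : 1 ≤ k)] at hB
        have c1 : 4 * ((((2 * k : ℕ) : ℚ)) * (2 * ((k + 1 : ℕ) : ℚ) - 1)
                - (((k + 1 : ℕ) : ℚ) - 1) * (4 * ((k + 1 : ℕ) : ℚ) - 1)) = -4 * k := by
          push_cast
          ring
        have c2 : 8 * ((((2 * k : ℕ) : ℚ)) + 4 - 2 * ((k + 1 : ℕ) : ℚ)) *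
                ((((2 * k : ℕ) : ℚ)) + 3 - 2 * ((k + 1 : ℕ) : ℚ)) = 16 := by
          push_cast
          ring
        have c3 : 4 * ((((2 * k : ℕ) : ℚ)) + 3 - 2 * ((k + 1 : ℕ) : ℚ)) = 4 := by
          push_cast
          ring
        rw [c1, c2, c3] at hA
        have d1 : 4 * ((((2 * k : ℕ) : ℚ)) * (2 * (k : ℚ) - 1) - ((k : ℚ) - 1) * (4 * (k : ℚ) - 1))
            = 4 * (3 * k - 1) := by
          push_cast
          ring
        have d2 : 4 * ((((2 * k : ℕ) : ℚ)) + 3 - 2 * (k : ℚ)) = 12 := by
          push_cast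
          ring
        rw [d1, d2] at hB
        have p1 := h0 k
        have p2 := h0 (k - 1)
        have p3 := h1 k
        have p4 := h1 (k - 1)
        have p5 : 0 ≤ (if 2 ≤ k then
            8 * (((2 * k : ℕ) : ℚ) + 4 - 2 * k) * (((2 * k : ℕ) : ℚ) + 3 - 2 * k) * gam (2 * k) (k - 2)
            else 0) := by
          split_ifs
          · apply mul_nonneg _ (h0 _)
            push_cast
            apply mul_nonneg <;> linarith
          · exact le_refl _
        have hkq : (1 : ℚ) ≤ k := by exact_mod_cast hk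
        push_cast at hA hB ⊢
        -- set names
        set A := gam (2 * k + 2) (k + 1) with hAdef
        set B := gam (2 * k + 2) k with hBdef
        set x := gam (2 * k + 1) k with hx
        set y := gam (2 * k) (k - 1) with hy
        set z := gam (2 * k) k with hz
        set u := gam (2 * k + 1) (k - 1) with hu
        have hA' : (2 * (k : ℚ) + 2) * A ≤ 4 * x + 16 * y := by
          have : 0 ≤ (k : ℚ) * z := by positivity
          nlinarith
        have hB' : (2 * (k : ℚ) + 1) * x + 4 * (3 * k - 1) * y ≤ (2 * (k : ℚ) + 2) * B := by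
          have t1 : 0 ≤ (2 * (k : ℚ) ^ 2 + 2 * k + 2 * k + 1) * z := by positivity
          have t2 : 0 ≤ 12 * u := by positivity
          push_cast at p5
          linarith
        have hpos : (0 : ℚ) < 2 * (k : ℚ) + 2 := by positivity
        have key : (2 * (k : ℚ) + 2) * (((k : ℚ) + 1) * A) ≤ (2 * (k : ℚ) + 2) * (4 * B) := by
          have k1 : ((k : ℚ) + 1) * ((2 * (k : ℚ) + 2) * A) ≤ ((k : ℚ) + 1) * (4 * x + 16 * y) :=
            mul_le_mul_of_nonneg_left hA' (by positivity)
          nlinarith [mul_nonneg p3 (by positivity : (0 : ℚ) ≤ k),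
            mul_nonneg p2 (by linarith : (0 : ℚ) ≤ (k : ℚ) - 1)]
        exact le_of_mul_le_mul_left key hpos

theorem gam_nonneg (n i : ℕ) : 0 ≤ gam n i := (gam_pos_aux n).1 i

end Pool.Agent.Y348.GB
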