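import Mathlib
import Pool.Agent.Y348.GB.Counting

set_option autoImplicit false

/-!
The linearly ordered set of keys for signed involutions.
-/

namespace Pool.Agent.Y348.GB

open Finset

/-- keys `(k,l)` with `0 ≤ k ≤ m`, `-m ≤ l ≤ m` and `0 ≤ l` if `k = 0` -/
@[ext]
structure KK (m : ℕ) where
  k : ℤ
  l : ℤ
  hk0 : 0 ≤ k
  hkm : k ≤ m
  hl0 : -(m : ℤ) ≤ l
  hlm : l ≤ m
  hkl : k = 0 → 0 ≤ l

variable {m : ℕ}

/-- embedding in the lexicographic product -/
def KK.toLex' (x : KK m) : ℤ ×ₗ ℤ := toLex (x.k, x.l)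

theorem KK.toLex'_injective : Function.Injective (KK.toLex' : KK m → ℤ ×ₗ ℤ) := by
  intro x y h
  unfold KK.toLex' at h
  have h1 := congrArg (fun z => (ofLex z).1) h
  have h2 := congrArg (fun z => (ofLex z).2) h
  simp only [ofLex_toLex] at h1 h2
  exact KK.ext h1 h2

noncomputable instance : LinearOrder (KK m) :=
  LinearOrder.lift' KK.toLex' KK.toLex'_injective

theorem KK.le_iff (x y : KK m) : x ≤ y ↔ x.k < y.k ∨ (x.k = y.k ∧ x.l ≤ y.l) := by
  have : x ≤ y ↔ KK.toLex' x ≤ KK.toLex' y := Iff.rfl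
  rw [this]
  unfold KK.toLex'
  rw [Prod.Lex.toLex_le_toLex]

/-- the swap -/
def KK.iota (x : KK m) : KK m :=
  if h : 0 ≤ x.l then ⟨x.l, x.k, h, x.hlm, by have := x.hk0; omega, x.hkm, fun _ => x.hk0⟩
  else ⟨-x.l, -x.k, by omega, by have := x.hl0; omega, by have := x.hkm; omega,
    by have := x.hk0; omega, fun h0 => by omega⟩

theorem KK.iota_k (x : KK m) : x.iota.k = if 0 ≤ x.l then x.l else -x.l := by
  unfold KK.iota
  split_ifs <;> rfl

theorem KK.iota_l (x : KK m) : x.iota.l = if 0 ≤ x.l then x.k else -x.k := by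
  unfold KK.iota
  split_ifs <;> rfl

theorem KK.iota_iota (x : KK m) : x.iota.iota = x := by
  have h1 := x.hk0
  have h2 := x.hkl
  apply KK.ext
  · rw [KK.iota_k, KK.iota_l]
    split_ifs <;> omega
  · rw [KK.iota_l, KK.iota_l, KK.iota_k]
    split_ifs <;> omega

/-- the sign -/
def KK.sg (x : KK m) : Bool := decide (x.l < 0)

theorem KK.sg_iota (x : KK m) : x.iota.sg = x.sg := by
  have h1 := x.hk0
  have h2 := x.hkl
  unfold KK.sg
  rw [KK.iota_l]
  split_ifs with h
  · have e1 : decide (x.k < 0) = false := by simpa using h1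
    have e2 : decide (x.l < 0) = false := by simpa using h
    rw [e1, e2]
  · have e1 : decide (-x.k < 0) = true := by
      rw [decide_eq_true_iff]; omega
    have e2 : decide (x.l < 0) = true := by
      rw [decide_eq_true_iff]; omega
    rw [e1, e2]

/-- fixed points -/
def FF (m : ℕ) : Type := {l : ℤ // l ∈ Finset.Icc (-(m : ℤ)) m}

/-- one representative of each pair -/
def DD (m : ℕ) : Type := {p : (Σ _ : ℤ, ℤ) // p ∈ (Finset.Icc (1 : ℤ) m).sigma (fun k => Finset.Ioo (-k) k)}

noncomputable instance : Fintype (FF m) := by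
  unfold FF
  infer_instance

noncomputable instance : Fintype (DD m) := by
  unfold DD
  infer_instance

theorem card_FF : Fintype.card (FF m) = 2 * m + 1 := by
  have : Fintype.card (FF m) = (Finset.Icc (-(m : ℤ)) m).card :=
    Fintype.card_coe (Finset.Icc (-(m : ℤ)) m)
  rw [this, Int.card_Icc]
  omega

theorem card_DD : Fintype.card (DD m) = m ^ 2 := by
  have h1 : Fintype.card (DD m) =
      ((Finset.Icc (1 : ℤ) m).sigma (fun k => Finset.Ioo (-k) k)).card :=
    Fintype.card_coe _
  rw [h1, Finset.card_sigma]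
  induction m with
  | zero => simp
  | succ m ih =>
    have h2 : Finset.Icc (1 : ℤ) ((m + 1 : ℕ) : ℤ) = insert ((m : ℤ) + 1) (Finset.Icc (1 : ℤ) m) := by
      ext x
      simp only [Finset.mem_Icc, Finset.mem_insert]
      push_cast
      omega
    rw [h2, Finset.sum_insert, ih, Int.card_Ioo]
    · have : ((m : ℤ) + 1 - -((m : ℤ) + 1) - 1).toNat = 2 * m + 1 := by omega
      rw [this]
      ring
    · exact Fintype.card_coe _
    · simp

/-- element of `KK` for a fixed point -/
def ofF (f : FF m) : KK m :=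
  have h := Finset.mem_Icc.mp f.2
  ⟨|f.1|, f.1, abs_nonneg _, abs_le.mpr ⟨by omega, h.2⟩, h.1, h.2, fun h0 => by
    have : f.1 = 0 := abs_eq_zero.mp h0
    omega⟩

theorem DD_mem (d : DD m) : 1 ≤ d.1.1 ∧ d.1.1 ≤ m ∧ -d.1.1 < d.1.2 ∧ d.1.2 < d.1.1 := by
  have h := d.2
  rw [Finset.mem_sigma, Finset.mem_Icc, Finset.mem_Ioo] at h
  exact ⟨h.1.1, h.1.2, h.2.1, h.2.2⟩

/-- element of `KK` for a representative -/
def ofD (d : DD m) : KK m :=
  have h := DD_mem d
  ⟨d.1.1, d.1.2, by omega, h.2.1, by omega, by omega, fun _ => by omega⟩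

/-- inverse of the decomposition -/
def ofSum : FF m ⊕ (DD m × Bool) → KK m
  | Sum.inl f => ofF f
  | Sum.inr (d, false) => ofD d
  | Sum.inr (d, true) => (ofD d).iota

theorem ofF_k (f : FF m) : (ofF f).k = |f.1| := rfl
theorem ofF_l (f : FF m) : (ofF f).l = f.1 := rfl
theorem ofD_k (d : DD m) : (ofD d).k = d.1.1 := rfl
theorem ofD_l (d : DD m) : (ofD d).l = d.1.2 := rfl

theorem iota_ofF (f : FF m) : (ofF f).iota = ofF f := by
  apply KK.ext
  · rw [KK.iota_k, ofF_l, ofF_k]
    split_ifs with h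
    · rw [abs_of_nonneg h]
    · rw [abs_of_neg (by omega)]
  · rw [KK.iota_l, ofF_l, ofF_k]
    split_ifs with h
    · rw [abs_of_nonneg h]
    · rw [abs_of_neg (by omega), neg_neg]

theorem ofSum_bijective : Function.Bijective (ofSum : FF m ⊕ (DD m × Bool) → KK m) := by
  have hD : ∀ d : DD m, (ofD d).iota.k < |(ofD d).iota.l| := by
    intro d
    have h := DD_mem d
    rw [KK.iota_k, KK.iota_l, ofD_k, ofD_l]
    split_ifs with h0
    · rw [abs_of_pos (by omega)]
      omega
    · rw [abs_of_neg (by omega)]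
      omega
  have hD' : ∀ d : DD m, |(ofD d).l| < (ofD d).k := by
    intro d
    have h := DD_mem d
    rw [ofD_k, ofD_l, abs_lt]
    omega
  have hF : ∀ f : FF m, |(ofF f).l| = (ofF f).k := fun f => rfl
  have hDinj : ∀ d d' : DD m, ofD d = ofD d' → d = d' := by
    intro d d' h
    have h1 : (ofD d).k = (ofD d').k := by rw [h]
    have h2 : (ofD d).l = (ofD d').l := by rw [h]
    rw [ofD_k, ofD_k] at h1
    rw [ofD_l, ofD_l] at h2
    apply Subtype.ext
    exact Sigma.ext h1 (heq_of_eq h2)
  constructor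
  · rintro (f | ⟨d, b⟩) (f' | ⟨d', b'⟩) h
    · have h1 : (ofF f).l = (ofF f').l := by
        have h2 : ofF f = ofF f' := h
        rw [h2]
      rw [ofF_l, ofF_l] at h1
      have h3 : f = f' := Subtype.ext h1
      rw [h3]
    · exfalso
      have h0 := hF f
      cases b'
      · have h2 : ofF f = ofD d' := h
        have h3 := hD' d'
        rw [← h2] at h3
        omega
      · have h2 : ofF f = (ofD d').iota := h
        have h3 := hD d'
        rw [← h2] at h3
        omega
    · exfalso
      have h0 := hF f'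
      cases b
      · have h2 : ofD d = ofF f' := h
        have h3 := hD' d
        rw [h2] at h3
        omega
      · have h2 : (ofD d).iota = ofF f' := h
        have h3 := hD d
        rw [h2] at h3
        omega
    · cases b <;> cases b'
      · have h2 : ofD d = ofD d' := h
        rw [hDinj d d' h2]
      · exfalso
        have h2 : ofD d = (ofD d').iota := h
        have h3 := hD' d
        have h4 := hD d'
        rw [← h2] at h4
        omega
      · exfalso
        have h2 : (ofD d).iota = ofD d' := h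
        have h3 := hD d
        have h4 := hD' d'
        rw [← h2] at h4
        omega
      · have h2 : (ofD d).iota = (ofD d').iota := h
        have h3 : ofD d = ofD d' := by
          rw [← KK.iota_iota (ofD d), h2, KK.iota_iota]
        rw [hDinj d d' h3]
  · intro x
    have h1 := x.hk0
    have h2 := x.hkm
    have h3 := x.hl0
    have h4 := x.hlm
    have h5 := x.hkl
    rcases lt_trichotomy |x.l| x.k with h | h | h
    · rw [abs_lt] at h
      have hmem : (⟨x.k, x.l⟩ : Σ _ : ℤ, ℤ) ∈
          (Finset.Icc (1 : ℤ) m).sigma (fun k => Finset.Ioo (-k) k) := by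
        rw [Finset.mem_sigma, Finset.mem_Icc, Finset.mem_Ioo]
        refine ⟨⟨?_, h2⟩, h.1, h.2⟩
        show 1 ≤ x.k
        omega
      exact ⟨Sum.inr ((⟨⟨x.k, x.l⟩, hmem⟩ : DD m), false), rfl⟩
    · refine ⟨Sum.inl ⟨x.l, ?_⟩, ?_⟩
      · rw [Finset.mem_Icc]
        exact ⟨h3, h4⟩
      · apply KK.ext
        · exact h
        · rfl
    · have hy : x = x.iota.iota := (KK.iota_iota x).symm
      have k1 : x.iota.k = |x.l| := by
        rw [KK.iota_k]
        split_ifs with h0
        · rw [abs_of_nonneg h0]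
        · rw [abs_of_neg (by omega)]
      have k2 : |x.iota.l| = x.k := by
        rw [KK.iota_l]
        split_ifs with h0
        · rw [abs_of_nonneg h1]
        · rw [abs_neg, abs_of_nonneg h1]
      have h7 : |x.iota.l| < x.iota.k := by
        rw [k1, k2]
        exact h
      rw [abs_lt] at h7
      have h8 := x.iota.hkm
      have hmem : (⟨x.iota.k, x.iota.l⟩ : Σ _ : ℤ, ℤ) ∈
          (Finset.Icc (1 : ℤ) m).sigma (fun k => Finset.Ioo (-k) k) := by
        rw [Finset.mem_sigma, Finset.mem_Icc, Finset.mem_Ioo]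
        refine ⟨⟨?_, h8⟩, h7.1, h7.2⟩
        show 1 ≤ x.iota.k
        omega
      refine ⟨Sum.inr ((⟨⟨x.iota.k, x.iota.l⟩, hmem⟩ : DD m), true), ?_⟩
      exact (KK.iota_iota x)

/-- the decomposition -/
noncomputable def KK.decomp : KK m ≃ FF m ⊕ (DD m × Bool) :=
  (Equiv.ofBijective ofSum ofSum_bijective).symm

noncomputable instance : Fintype (KK m) := Fintype.ofEquiv _ KK.decomp.symm

theorem VV_KK_card (m n : ℕ) :
    Nat.card (VV (KK.iota (m := m)) KK.sg n) = mc (2 * m + 1) (m ^ 2) n := by
  rw [VV_card (KK.iota (m := m)) KK.sg KK.iota_iota KK.sg_iota KK.decomp ?_ ?_, card_FF, card_DD]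
  · intro f
    exact iota_ofF f
  · intro d b
    cases b
    · rfl
    · exact KK.iota_iota _

end Pool.Agent.Y348.GB
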