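import Mathlib
import Pool.Agent.Y348.GB.KType

set_option autoImplicit false

/-!
Signed involutions with compatible level functions correspond to valid pairs.
-/

namespace Pool.Agent.Y348.GB

open Finset

variable {m n : ℕ}

/-- signed value -/
def sval (σ : Equiv.Perm (Fin n)) (ε : Fin n → Bool) (i : Fin n) : ℤ :=
  (if ε i then (-1 : ℤ) else 1) * (((σ i : ℕ) : ℤ) + 1)

theorem sval_true {σ : Equiv.Perm (Fin n)} {ε : Fin n → Bool} {i : Fin n} (h : ε i = true) :
    sval σ ε i = -(((σ i : ℕ) : ℤ) + 1) := by
  unfold sval
  rw [h]
  simp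

theorem sval_false {σ : Equiv.Perm (Fin n)} {ε : Fin n → Bool} {i : Fin n} (h : ε i = false) :
    sval σ ε i = ((σ i : ℕ) : ℤ) + 1 := by
  unfold sval
  rw [h]
  simp

/-- signed involution -/
def SInv (σ : Equiv.Perm (Fin n)) (ε : Fin n → Bool) : Prop :=
  ∀ i, σ (σ i) = i ∧ ε (σ i) = ε i

/-- compatible level function -/
structure Compat (m : ℕ) (σ : Equiv.Perm (Fin n)) (ε : Fin n → Bool) (a : Fin n → ℕ) : Prop where
  bd : ∀ i, a i ≤ m
  mono : ∀ i j, i < j → a i ≤ a j
  strict : ∀ i j, i < j → a i = a j → sval σ ε i < sval σ ε j
  zero : ∀ i, a i = 0 → ε i = false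

/-- the keys -/
def gOf (σ : Equiv.Perm (Fin n)) (ε : Fin n → Bool) (a : Fin n → ℕ)
    (hs : SInv σ ε) (hc : Compat m σ ε a) (i : Fin n) : KK m where
  k := a i
  l := (if ε i then (-1 : ℤ) else 1) * (a (σ i))
  hk0 := by positivity
  hkm := by exact_mod_cast hc.bd i
  hl0 := by
    have h := hc.bd (σ i)
    cases ε i <;> simp <;> omega
  hlm := by
    have h := hc.bd (σ i)
    cases ε i <;> simp <;> omega
  hkl := by
    intro h0
    have h1 : a i = 0 := by exact_mod_cast h0
    have h2 := hc.zero i h1
    rw [h2]
    simp

theorem gOf_l_true {σ : Equiv.Perm (Fin n)} {ε : Fin n → Bool} {a : Fin n → ℕ}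
    {hs : SInv σ ε} {hc : Compat m σ ε a} {i : Fin n} (h : ε i = true) :
    (gOf σ ε a hs hc i).l = -(a (σ i) : ℤ) := by
  show (if ε i then (-1 : ℤ) else 1) * (a (σ i)) = _
  rw [h]
  simp

theorem gOf_l_false {σ : Equiv.Perm (Fin n)} {ε : Fin n → Bool} {a : Fin n → ℕ}
    {hs : SInv σ ε} {hc : Compat m σ ε a} {i : Fin n} (h : ε i = false) :
    (gOf σ ε a hs hc i).l = (a (σ i) : ℤ) := by
  show (if ε i then (-1 : ℤ) else 1) * (a (σ i)) = _
  rw [h]
  simp

theorem gOf_l_neg {σ : Equiv.Perm (Fin n)} {ε : Fin n → Bool} {a : Fin n → ℕ}
    {hs : SInv σ ε} {hc : Compat m σ ε a} {i : Fin n} :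
    (gOf σ ε a hs hc i).l < 0 ↔ ε i = true := by
  cases he : ε i
  · rw [gOf_l_false he]
    simp
  · rw [gOf_l_true he]
    have h1 : a (σ i) ≠ 0 := by
      intro h0
      have h2 := hc.zero (σ i) h0
      rw [(hs i).2, he] at h2
      exact absurd h2 (by decide)
    simp
    omega

theorem gOf_valid {σ : Equiv.Perm (Fin n)} {ε : Fin n → Bool} {a : Fin n → ℕ}
    (hs : SInv σ ε) (hc : Compat m σ ε a) :
    Valid (KK.iota (m := m)) KK.sg (gOf σ ε a hs hc) σ := by
  have hmono : Monotone (gOf σ ε a hs hc) := by
    intro i j hij
    rcases hij.eq_or_lt with rfl | hij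
    · exact le_refl _
    rw [KK.le_iff]
    have h1 := hc.mono i j hij
    rcases h1.eq_or_lt with he | hl
    · right
      refine ⟨?_, ?_⟩
      · show (a i : ℤ) = a j
        exact_mod_cast he
      · have h2 := hc.strict i j hij he
        cases hei : ε i <;> cases hej : ε j
        · rw [gOf_l_false hei, gOf_l_false hej]
          rw [sval_false hei, sval_false hej] at h2
          have h3 : σ i < σ j := by
            show (σ i).val < (σ j).val
            omega
          exact_mod_cast hc.mono _ _ h3
        · rw [sval_false hei, sval_true hej] at h2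
          exfalso
          omega
        · rw [gOf_l_true hei, gOf_l_false hej]
          omega
        · rw [gOf_l_true hei, gOf_l_true hej]
          rw [sval_true hei, sval_true hej] at h2
          have h3 : σ j < σ i := by
            show (σ j).val < (σ i).val
            omega
          have h4 := hc.mono _ _ h3
          omega
    · left
      show (a i : ℤ) < a j
      exact_mod_cast hl
  refine ⟨hmono, fun i => (hs i).1, ?_, ?_⟩
  · intro i
    have hσ := (hs i).1
    have hε := (hs i).2
    apply KK.ext
    · rw [KK.iota_k]
      show (a (σ i) : ℤ) = _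
      cases hei : ε i
      · rw [gOf_l_false hei, if_pos (by positivity)]
      · have h0 : (gOf σ ε a hs hc i).l < 0 := gOf_l_neg.2 hei
        rw [if_neg (not_le.mpr h0), gOf_l_true hei, neg_neg]
    · rw [KK.iota_l]
      cases hei : ε i
      · have hei' : ε (σ i) = false := by rw [hε, hei]
        rw [gOf_l_false hei, gOf_l_false hei', if_pos (by positivity), hσ]
        rfl
      · have hei' : ε (σ i) = true := by rw [hε, hei]
        have h0 : (gOf σ ε a hs hc i).l < 0 := gOf_l_neg.2 hei
        rw [if_neg (not_le.mpr h0), gOf_l_true hei', hσ]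
        rfl
  · intro i j hij hg
    have h1 : a i = a j := by
      have h : (gOf σ ε a hs hc i).k = (gOf σ ε a hs hc j).k := by rw [hg]
      have h' : (a i : ℤ) = a j := h
      exact_mod_cast h'
    have h2 := hc.strict i j hij h1
    have h3 : (gOf σ ε a hs hc i).l < 0 ↔ (gOf σ ε a hs hc j).l < 0 := by rw [hg]
    rw [gOf_l_neg, gOf_l_neg] at h3
    constructor
    · intro hsg
      unfold KK.sg at hsg
      rw [decide_eq_true_iff, gOf_l_neg] at hsg
      rw [sval_true hsg, sval_true (h3.1 hsg)] at h2
      show (σ j).val < (σ i).val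
      omega
    · intro hsg
      unfold KK.sg at hsg
      rw [decide_eq_false_iff_not, gOf_l_neg] at hsg
      have hei : ε i = false := by simpa using hsg
      have hej : ε j = false := by
        have : ¬ (ε j = true) := fun h => hsg (h3.2 h)
        simpa using this
      rw [sval_false hei, sval_false hej] at h2
      show (σ i).val < (σ j).val
      omega

/-- level function from keys -/
def aOf (g : Fin n → KK m) (i : Fin n) : ℕ := (g i).k.toNat

/-- signs from keys -/
def eOf (g : Fin n → KK m) (i : Fin n) : Bool := decide ((g i).l < 0)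

theorem aOf_cast (g : Fin n → KK m) (i : Fin n) : (aOf g i : ℤ) = (g i).k := by
  unfold aOf
  have := (g i).hk0
  omega

section back

variable {g : Fin n → KK m} {σ : Equiv.Perm (Fin n)} (h : Valid (KK.iota (m := m)) KK.sg g σ)

include h

theorem sinv_of_valid : SInv σ (eOf g) := by
  intro i
  refine ⟨h.invol i, ?_⟩
  unfold eOf
  have h1 := KK.sg_iota (g i)
  unfold KK.sg at h1
  rw [h.swap i]
  exact h1

theorem k_swap (i : Fin n) : (g (σ i)).k = |(g i).l| := by
  rw [h.swap i, KK.iota_k]
  split_ifs with h0
  · rw [abs_of_nonneg h0]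
  · rw [abs_of_neg (by omega)]

theorem lt_of_k_lt {i j : Fin n} (hk : (g i).k < (g j).k) : i < j := by
  by_contra hcon
  push Not at hcon
  have := h.mono hcon
  rw [KK.le_iff] at this
  omega

theorem compat_of_valid : Compat m σ (eOf g) (aOf g) := by
  refine ⟨?_, ?_, ?_, ?_⟩
  · intro i
    have h1 := (g i).hkm
    have h2 := aOf_cast g i
    omega
  · intro i j hij
    have h1 := h.mono hij.le
    rw [KK.le_iff] at h1
    have h2 := aOf_cast g i
    have h3 := aOf_cast g j
    omega
  · intro i j hij ha
    have h1 := h.mono hij.le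
    rw [KK.le_iff] at h1
    have h2 := aOf_cast g i
    have h3 := aOf_cast g j
    have hk : (g i).k = (g j).k := by omega
    have hl : (g i).l ≤ (g j).l := by omega
    have ki := k_swap h i
    have kj := k_swap h j
    by_cases hi : (g i).l < 0
    · have hei : eOf g i = true := by
        unfold eOf
        rw [decide_eq_true_iff]
        exact hi
      rw [sval_true hei]
      by_cases hj : (g j).l < 0
      · have hej : eOf g j = true := by
          unfold eOf
          rw [decide_eq_true_iff]
          exact hj
        rw [sval_true hej]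
        have h5 : σ j < σ i := by
          rcases hl.eq_or_lt with he | hlt
          · have hgij : g i = g j := KK.ext hk he
            refine (h.fib i j hij hgij).1 ?_
            unfold KK.sg
            rw [decide_eq_true_iff]
            exact hi
          · apply lt_of_k_lt h
            rw [ki, kj, abs_of_neg hi, abs_of_neg hj]
            omega
        have h6 : (σ j).val < (σ i).val := h5
        omega
      · have hej : eOf g j = false := by
          unfold eOf
          rw [decide_eq_false_iff_not]
          exact hj
        rw [sval_false hej]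
        omega
    · have hj : ¬ (g j).l < 0 := by omega
      have hei : eOf g i = false := by
        unfold eOf
        rw [decide_eq_false_iff_not]
        exact hi
      have hej : eOf g j = false := by
        unfold eOf
        rw [decide_eq_false_iff_not]
        exact hj
      rw [sval_false hei, sval_false hej]
      have h5 : σ i < σ j := by
        rcases hl.eq_or_lt with he | hlt
        · have hgij : g i = g j := KK.ext hk he
          refine (h.fib i j hij hgij).2 ?_
          unfold KK.sg
          rw [decide_eq_false_iff_not]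
          exact hi
        · apply lt_of_k_lt h
          rw [ki, kj, abs_of_nonneg (by omega), abs_of_nonneg (by omega)]
          omega
      have h6 : (σ i).val < (σ j).val := h5
      omega
  · intro i ha
    have h2 := aOf_cast g i
    have hk : (g i).k = 0 := by omega
    have h3 := (g i).hkl hk
    unfold eOf
    rw [decide_eq_false_iff_not]
    omega

end back

/-- signed involutions with compatible level functions -/
def WW (m n : ℕ) : Type :=
  {x : (Equiv.Perm (Fin n) × (Fin n → Bool)) × (Fin n → ℕ) //
    SInv x.1.1 x.1.2 ∧ Compat m x.1.1 x.1.2 x.2}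

/-- the correspondence -/
noncomputable def WWequiv (m n : ℕ) : WW m n ≃ VV (KK.iota (m := m)) KK.sg n where
  toFun x := ⟨(gOf x.1.1.1 x.1.1.2 x.1.2 x.2.1 x.2.2, x.1.1.1), gOf_valid x.2.1 x.2.2⟩
  invFun p := ⟨((p.1.2, eOf p.1.1), aOf p.1.1), sinv_of_valid p.2, compat_of_valid p.2⟩
  left_inv := by
    rintro ⟨⟨⟨σ, ε⟩, a⟩, hs, hc⟩
    apply Subtype.ext
    simp only
    have h1 : eOf (gOf σ ε a hs hc) = ε := by
      funext i
      unfold eOf
      have h := gOf_l_neg (σ := σ) (ε := ε) (a := a) (hs := hs) (hc := hc) (i := i)
      cases he : ε i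
      · rw [decide_eq_false_iff_not, h, he]
        decide
      · rw [decide_eq_true_iff, h, he]
    have h2 : aOf (gOf σ ε a hs hc) = a := by
      funext i
      show ((a i : ℤ)).toNat = a i
      simp
    rw [h1, h2]
  right_inv := by
    rintro ⟨⟨g, σ⟩, h⟩
    apply Subtype.ext
    simp only
    have h1 : gOf σ (eOf g) (aOf g) (sinv_of_valid h) (compat_of_valid h) = g := by
      funext i
      apply KK.ext
      · exact aOf_cast g i
      · have ki := k_swap h i
        have h2 := aOf_cast g (σ i)
        cases he : eOf g i
        · rw [gOf_l_false he]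
          unfold eOf at he
          rw [decide_eq_false_iff_not] at he
          have he' : 0 ≤ (g i).l := not_lt.mp he
          rw [h2, ki]
          exact abs_of_nonneg he'
        · rw [gOf_l_true he]
          unfold eOf at he
          rw [decide_eq_true_iff] at he
          have he' : (g i).l < 0 := he
          rw [h2, ki, abs_of_neg he']
          exact neg_neg _
    exact Prod.ext h1 rfl

theorem WW_card (m n : ℕ) : Nat.card (WW m n) = mc (2 * m + 1) (m ^ 2) n := by
  rw [Nat.card_congr (WWequiv m n), VV_KK_card]

end Pool.Agent.Y348.GB
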