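import Mathlib
import Pool.Agent.Y348.GB.Bij

set_option autoImplicit false

/-!
The number of compatible level functions of a signed permutation.
-/

namespace Pool.Agent.Y348.GB

open Finset

variable {N : ℕ} (σ : Equiv.Perm (Fin (N + 1))) (ε : Fin (N + 1) → Bool)

theorem sval_injective {n : ℕ} (σ : Equiv.Perm (Fin n)) (ε : Fin n → Bool) :
    Function.Injective (sval σ ε) := by
  intro i j h
  have h2 : (σ i).val = (σ j).val := by
    cases hi : ε i <;> cases hj : ε j
    · rw [sval_false hi, sval_false hj] at h
      omega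
    · rw [sval_false hi, sval_true hj] at h
      omega
    · rw [sval_true hi, sval_false hj] at h
      omega
    · rw [sval_true hi, sval_true hj] at h
      omega
  exact σ.injective (Fin.ext h2)

/-- descent indicator at `i` -/
def dd (i : Fin N) : ℕ := if sval σ ε i.succ < sval σ ε i.castSucc then 1 else 0

/-- descent indicator at the beginning -/
def e0 : ℕ := if ε 0 = true then 1 else 0

/-- number of descents up to a position -/
def DS (j : Fin (N + 1)) : ℕ :=
  e0 ε + ∑ i : Fin N, if i.castSucc < j then dd σ ε i else 0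

theorem DS_zero : DS σ ε 0 = e0 ε := by
  unfold DS
  simp

theorem DS_succ (i : Fin N) : DS σ ε i.succ = DS σ ε i.castSucc + dd σ ε i := by
  unfold DS
  rw [add_assoc]
  congr 1
  have h : ∀ q : Fin N, (if q.castSucc < i.succ then dd σ ε q else 0)
      = (if q.castSucc < i.castSucc then dd σ ε q else 0) + (if q = i then dd σ ε q else 0) := by
    intro q
    rcases lt_trichotomy q i with hq | hq | hq
    · have h1 : q.castSucc < i.succ := by
        show q.val < i.val + 1
        have : q.val < i.val := hq
        omega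
      have h2 : q.castSucc < i.castSucc := hq
      rw [if_pos h1, if_pos h2, if_neg hq.ne, add_zero]
    · subst hq
      have h1 : q.castSucc < q.succ := Fin.castSucc_lt_succ
      rw [if_pos h1, if_neg (lt_irrefl _), if_pos rfl, zero_add]
    · have h1 : ¬ q.castSucc < i.succ := by
        intro hh
        have h3 : q.val < i.val + 1 := hh
        have : i.val < q.val := hq
        omega
      have h2 : ¬ q.castSucc < i.castSucc := fun hh => absurd hq (not_lt.mpr (le_of_lt hh))
      rw [if_neg h1, if_neg h2, if_neg hq.ne']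
  rw [Finset.sum_congr rfl (fun q _ => h q), Finset.sum_add_distrib]
  simp

theorem DS_last : DS σ ε (Fin.last N) = e0 ε + ∑ i : Fin N, dd σ ε i := by
  unfold DS
  congr 1
  apply Finset.sum_congr rfl
  intro i _
  rw [if_pos (Fin.castSucc_lt_last i)]

theorem DS_mono : Monotone (DS σ ε) := by
  rw [Fin.monotone_iff_le_succ]
  intro i
  rw [DS_succ]
  omega

/-- descent number in the form used here -/
def desN : ℕ := e0 ε + ∑ i : Fin N, dd σ ε i

theorem sval_lt_of_DS_eq (i j : Fin (N + 1)) (hij : i ≤ j) (h : DS σ ε i = DS σ ε j) :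
    sval σ ε i ≤ sval σ ε j ∧ (i < j → sval σ ε i < sval σ ε j) := by
  induction j using Fin.induction with
  | zero =>
    have : i = 0 := Fin.le_zero_iff.mp hij
    subst this
    exact ⟨le_refl _, fun h => absurd h (lt_irrefl _)⟩
  | succ q ih =>
    rcases hij.eq_or_lt with he | hlt
    · subst he
      exact ⟨le_refl _, fun h => absurd h (lt_irrefl _)⟩
    · have h1 : i ≤ q.castSucc := Fin.le_castSucc_iff.mpr hlt
      have h2 := DS_mono σ ε h1
      have h3 := DS_succ σ ε q
      have h4 : dd σ ε q = 0 := by omega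
      have h5 := (ih h1 (by omega)).1
      unfold dd at h4
      have h6 : ¬ sval σ ε q.succ < sval σ ε q.castSucc := by
        intro hh
        rw [if_pos hh] at h4
        exact absurd h4 (by norm_num)
      have h7 : sval σ ε q.castSucc ≠ sval σ ε q.succ := by
        intro hh
        have := sval_injective σ ε hh
        exact absurd this (Fin.castSucc_lt_succ).ne
      have h8 : sval σ ε q.castSucc < sval σ ε q.succ :=
        lt_of_le_of_ne (not_lt.mp h6) h7
      have h9 : sval σ ε i < sval σ ε q.succ := lt_of_le_of_lt h5 h8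
      exact ⟨h9.le, fun _ => h9⟩

theorem compat_diff_mono {m : ℕ} {a : Fin (N + 1) → ℕ} (hc : Compat m σ ε a) :
    Monotone (fun j => (a j : ℤ) - DS σ ε j) := by
  rw [Fin.monotone_iff_le_succ]
  intro i
  rw [DS_succ]
  have h1 : i.castSucc < i.succ := Fin.castSucc_lt_succ
  have h2 := hc.mono _ _ h1
  have h3 := hc.strict _ _ h1
  have h4 : a i.castSucc + dd σ ε i ≤ a i.succ := by
    unfold dd
    split_ifs with hd
    · rcases h2.eq_or_lt with he | hl
      · have := h3 he
        omega
      · omega
    · omega
  push_cast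
  omega

theorem compat_DS_le {m : ℕ} {a : Fin (N + 1) → ℕ} (hc : Compat m σ ε a) (j : Fin (N + 1)) :
    DS σ ε j ≤ a j := by
  have h := compat_diff_mono σ ε hc (Fin.zero_le j)
  simp only at h
  rw [DS_zero] at h
  have h1 : e0 ε ≤ a 0 := by
    unfold e0
    split_ifs with he
    · by_contra hcon
      have h0 : a 0 = 0 := by omega
      have := hc.zero 0 h0
      rw [this] at he
      exact absurd he (by decide)
    · omega
  omega

theorem compat_bound {m : ℕ} {a : Fin (N + 1) → ℕ} (hc : Compat m σ ε a) (j : Fin (N + 1)) :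
    a j + desN σ ε ≤ m + DS σ ε j := by
  have h := compat_diff_mono σ ε hc (Fin.le_last j)
  simp only at h
  have h1 := hc.bd (Fin.last N)
  have h2 := DS_last σ ε
  unfold desN
  omega

theorem DS_le_desN (j : Fin (N + 1)) : DS σ ε j ≤ desN σ ε := by
  have h := DS_mono σ ε (Fin.le_last j)
  rw [DS_last] at h
  exact h

theorem compat_of_mono {m : ℕ} (hm : desN σ ε ≤ m) {b : Fin (N + 1) → Fin (m - desN σ ε + 1)}
    (hb : Monotone b) : Compat m σ ε (fun j => (b j).val + DS σ ε j) := by
  refine ⟨?_, ?_, ?_, ?_⟩
  · intro i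
    have h1 := (b i).2
    have h2 := DS_le_desN σ ε i
    omega
  · intro i j hij
    have h1 : (b i).val ≤ (b j).val := hb hij.le
    have h2 := DS_mono σ ε hij.le
    omega
  · intro i j hij h
    have h1 : (b i).val ≤ (b j).val := hb hij.le
    have h2 := DS_mono σ ε hij.le
    exact (sval_lt_of_DS_eq σ ε i j hij.le (by omega)).2 hij
  · intro i h
    have h2 := DS_mono σ ε (Fin.zero_le i)
    have h3 : DS σ ε 0 = DS σ ε i := by omega
    have h4 := (sval_lt_of_DS_eq σ ε 0 i (Fin.zero_le i) h3).1
    have h5 : e0 ε = 0 := by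
      rw [← DS_zero σ ε]
      omega
    have h6 : ε 0 = false := by
      unfold e0 at h5
      cases h7 : ε 0
      · rfl
      · rw [h7] at h5
        simp at h5
    rw [sval_false h6] at h4
    cases h8 : ε i
    · rfl
    · rw [sval_true h8] at h4
      omega

/-- level functions and monotone tuples -/
noncomputable def levelEquiv (m : ℕ) (hm : desN σ ε ≤ m) :
    {a : Fin (N + 1) → ℕ // Compat m σ ε a} ≃
      {b : Fin (N + 1) → Fin (m - desN σ ε + 1) // Monotone b} where
  toFun a := ⟨fun j => ⟨a.1 j - DS σ ε j, by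
      have h1 := compat_bound σ ε a.2 j
      omega⟩, by
      intro i j hij
      have h := compat_diff_mono σ ε a.2 hij
      have h1 := compat_DS_le σ ε a.2 i
      have h2 := compat_DS_le σ ε a.2 j
      simp only at h
      show a.1 i - DS σ ε i ≤ a.1 j - DS σ ε j
      omega⟩
  invFun b := ⟨fun j => (b.1 j).val + DS σ ε j, compat_of_mono σ ε hm b.2⟩
  left_inv := by
    rintro ⟨a, ha⟩
    apply Subtype.ext
    funext j
    have h1 := compat_DS_le σ ε ha j
    simp only
    omega
  right_inv := by
    rintro ⟨b, hb⟩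
    apply Subtype.ext
    funext j
    apply Fin.ext
    simp only
    omega

theorem level_card (m : ℕ) :
    Nat.card {a : Fin (N + 1) → ℕ // Compat m σ ε a}
      = (N + 1 + m - desN σ ε).choose (N + 1) := by
  classical
  by_cases hm : desN σ ε ≤ m
  · rw [Nat.card_congr (levelEquiv σ ε m hm), Nat.card_eq_fintype_card, card_mono,
      Fintype.card_fin, Nat.multichoose_eq]
    congr 1
    omega
  · have hE : IsEmpty {a : Fin (N + 1) → ℕ // Compat m σ ε a} := by
      constructor
      rintro ⟨a, ha⟩
      have h1 := compat_DS_le σ ε ha (Fin.last N)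
      rw [DS_last] at h1
      have h2 := ha.bd (Fin.last N)
      unfold desN at hm
      omega
    rw [Nat.card_of_isEmpty, Nat.choose_eq_zero_of_lt]
    omega

/-- descent number as in the question -/
def desB {n : ℕ} (σ : Equiv.Perm (Fin n)) (ε : Fin n → Bool) : ℕ :=
  (Finset.univ.filter (fun j : Fin n => j.val = 0 ∧ ε j = true)).card +
    (Finset.univ.filter (fun p : Fin n × Fin n => p.2.val = p.1.val + 1 ∧
      sval σ ε p.2 < sval σ ε p.1)).card

theorem desB_eq : desB σ ε = desN σ ε := by
  unfold desB desN
  congr 1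
  · unfold e0
    split_ifs with h
    · have : (Finset.univ.filter (fun j : Fin (N + 1) => j.val = 0 ∧ ε j = true)) = {0} := by
        ext j
        simp only [Finset.mem_filter, Finset.mem_univ, true_and, Finset.mem_singleton]
        constructor
        · rintro ⟨h1, _⟩
          exact Fin.ext h1
        · rintro rfl
          exact ⟨rfl, h⟩
      rw [this, Finset.card_singleton]
    · rw [Finset.card_eq_zero, Finset.filter_eq_empty_iff]
      rintro j _ ⟨h1, h2⟩
      have : j = 0 := Fin.ext h1
      subst this
      exact h h2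
  · have h1 : ∑ i : Fin N, dd σ ε i
        = (Finset.univ.filter (fun i : Fin N => sval σ ε i.succ < sval σ ε i.castSucc)).card := by
      unfold dd
      rw [Finset.card_filter]
    rw [h1]
    symm
    apply Finset.card_bij (fun i _ => (i.castSucc, i.succ))
    · intro i hi
      simp only [Finset.mem_filter, Finset.mem_univ, true_and] at hi ⊢
      exact ⟨rfl, hi⟩
    · intro i _ j _ h
      have := congrArg Prod.fst h
      exact Fin.castSucc_injective _ this
    · rintro ⟨p, q⟩ hpq
      simp only [Finset.mem_filter, Finset.mem_univ, true_and] at hpq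
      have hp : p.val < N := by
        have := q.2
        omega
      have e1 : p = (⟨p.val, hp⟩ : Fin N).castSucc := by
        apply Fin.ext
        rfl
      have e2 : q = (⟨p.val, hp⟩ : Fin N).succ := by
        apply Fin.ext
        simp only [Fin.val_succ]
        exact hpq.1
      refine ⟨⟨p.val, hp⟩, ?_, ?_⟩
      · simp only [Finset.mem_filter, Finset.mem_univ, true_and]
        rw [← e1, ← e2]
        exact hpq.2
      · rw [← e1, ← e2]

theorem level_card' {n : ℕ} (σ : Equiv.Perm (Fin n)) (ε : Fin n → Bool) (m : ℕ) :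
    Nat.card {a : Fin n → ℕ // Compat m σ ε a} = (n + m - desB σ ε).choose n := by
  cases n with
  | zero =>
    have h1 : Nat.card {a : Fin 0 → ℕ // Compat m σ ε a} = 1 := by
      rw [Nat.card_eq_one_iff_unique]
      refine ⟨⟨?_⟩, ⟨⟨Fin.elim0, ⟨fun i => i.elim0, fun i => i.elim0, fun i => i.elim0,
        fun i => i.elim0⟩⟩⟩⟩
      rintro ⟨a, _⟩ ⟨b, _⟩
      apply Subtype.ext
      funext i
      exact i.elim0
    rw [h1, Nat.choose_zero_right]
  | succ N =>
    rw [level_card, desB_eq]

instance compatFinite {n : ℕ} (σ : Equiv.Perm (Fin n)) (ε : Fin n → Bool) (m : ℕ) :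
    Finite {a : Fin n → ℕ // Compat m σ ε a} := by
  apply Finite.of_injective
    (fun a : {a : Fin n → ℕ // Compat m σ ε a} =>
      (fun i => (⟨a.1 i, Nat.lt_succ_of_le (a.2.bd i)⟩ : Fin (m + 1))))
  rintro ⟨a, ha⟩ ⟨b, hb⟩ h
  apply Subtype.ext
  funext i
  have := congrArg Fin.val (congrFun h i)
  exact this

open Classical in
/-- **the counting identity** -/
theorem count_identity (m n : ℕ) :
    ∑ w ∈ (Finset.univ : Finset (Equiv.Perm (Fin n) × (Fin n → Bool))).filter
        (fun w => SInv w.1 w.2), (n + m - desB w.1 w.2).choose n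
      = mc (2 * m + 1) (m ^ 2) n := by
  rw [← WW_card]
  have e : WW m n ≃ Σ w : {w : Equiv.Perm (Fin n) × (Fin n → Bool) // SInv w.1 w.2},
      {a : Fin n → ℕ // Compat m w.1.1 w.1.2 a} :=
    { toFun := fun x => ⟨⟨x.1.1, x.2.1⟩, ⟨x.1.2, x.2.2⟩⟩
      invFun := fun y => ⟨(y.1.1, y.2.1), y.1.2, y.2.2⟩
      left_inv := fun x => rfl
      right_inv := fun y => rfl }
  rw [Nat.card_congr e, Nat.card_sigma]
  rw [← Finset.sum_subtype_eq_sum_filter]
  rw [Finset.subtype_univ]
  apply Finset.sum_congr rfl
  intro w _
  rw [level_card']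

end Pool.Agent.Y348.GB
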