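import Mathlib
import Pool.Agent.Y348.GB.Gamma
import Pool.Agent.Y348.GB.Levels

set_option autoImplicit false

/-!
The polynomial identity.
-/

namespace Pool.Agent.Y348.GB

open Finset Polynomial

/-- `x d/dx` -/
noncomputable def th (p : ℚ[X]) : ℚ[X] := X * derivative p

theorem th_basis (i e : ℕ) : th (X ^ i * (1 + X) ^ e) =
    (i : ℚ[X]) * (X ^ i * (1 + X) ^ e) + (e : ℚ[X]) * (X ^ (i + 1) * (1 + X) ^ (e - 1)) := by
  unfold th
  rw [derivative_mul, derivative_X_pow, derivative_pow]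
  have h1 : derivative (1 + X : ℚ[X]) = 1 := by simp
  rw [h1]
  have h2 : (C (i : ℚ) : ℚ[X]) = (i : ℚ[X]) := by simp
  have h3 : (C (e : ℚ) : ℚ[X]) = (e : ℚ[X]) := by simp
  rw [h2, h3]
  cases i with
  | zero =>
    simp only [Nat.cast_zero, zero_mul, pow_zero]
    ring
  | succ i =>
    have e1 : i + 1 - 1 = i := rfl
    rw [e1]
    push_cast
    ring

/-- first operator -/
noncomputable def T1 (n : ℕ) (p : ℚ[X]) : ℚ[X] :=
  2 * (1 - X) * th p + (2 * ((n : ℚ[X]) + 2) * X + (1 - X)) * p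

/-- auxiliary operator -/
noncomputable def Lam (n : ℕ) (p : ℚ[X]) : ℚ[X] := (1 - X) * th p + ((n : ℚ[X]) + 1) * X * p

/-- second operator -/
noncomputable def T2 (n : ℕ) (p : ℚ[X]) : ℚ[X] :=
  2 * (1 - X) * th (Lam n p) + 2 * ((n : ℚ[X]) + 2) * X * Lam n p + 2 * (1 - X) * Lam n p
    + ((n : ℚ[X]) + 1) * (1 - X) ^ 2 * p

theorem th_add (p q : ℚ[X]) : th (p + q) = th p + th q := by
  unfold th
  rw [derivative_add]
  ring

theorem th_mul (p q : ℚ[X]) : th (p * q) = th p * q + p * th q := by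
  unfold th
  rw [derivative_mul]
  ring

theorem th_C_mul (c : ℚ) (q : ℚ[X]) : th (C c * q) = C c * th q := by
  unfold th
  rw [derivative_C_mul]
  ring

theorem th_one_sub_X : th (1 - X) = -X := by
  unfold th
  simp

theorem th_X : th X = X := by
  unfold th
  simp

theorem th_natCast (n : ℕ) : th (n : ℚ[X]) = 0 := by
  unfold th
  simp

theorem Lam_th (n : ℕ) (p : ℚ[X]) : th (Lam n p) =
    -X * th p + (1 - X) * th (th p) + ((n : ℚ[X]) + 1) * (X * p + X * th p) := by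
  have h1 : th ((n : ℚ[X]) + 1) = 0 := by
    have : ((n : ℚ[X]) + 1) = ((n + 1 : ℕ) : ℚ[X]) := by push_cast; rfl
    rw [this, th_natCast]
  unfold Lam
  rw [th_add, th_mul, th_one_sub_X, th_mul, th_mul, h1, th_X]
  ring

theorem T1_basis (n i e : ℕ) (h : n + 1 = 2 * i + e) :
    T1 n (X ^ i * (1 + X) ^ e) = C (2 * (i : ℚ) + 1) * (X ^ i * (1 + X) ^ (e + 1))
      + C (4 * (e : ℚ)) * (X ^ (i + 1) * (1 + X) ^ (e - 1)) := by
  have hn : (n : ℚ[X]) + 1 = 2 * i + e := by exact_mod_cast congrArg (Nat.cast (R := ℚ[X])) h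
  have c1 : (C (2 * (i : ℚ) + 1) : ℚ[X]) = 2 * (i : ℚ[X]) + 1 := by
    simp only [map_add, map_mul, map_natCast, map_ofNat, map_one]
  have c2 : (C (4 * (e : ℚ)) : ℚ[X]) = 4 * (e : ℚ[X]) := by
    simp only [map_mul, map_natCast, map_ofNat]
  unfold T1
  rw [th_basis, c1, c2]
  cases e with
  | zero =>
    push_cast at hn ⊢
    simp only [pow_zero, mul_one]
    linear_combination (2 * X ^ (i + 1)) * hn
  | succ e =>
    have e1 : e + 1 - 1 = e := rfl
    rw [e1]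
    push_cast at hn ⊢
    linear_combination (2 * X ^ (i + 1) * (1 + X) ^ (e + 1)) * hn

theorem th_th_basis (i e : ℕ) : th (th (X ^ i * (1 + X) ^ e)) =
      (i : ℚ[X]) * ((i : ℚ[X]) * (X ^ i * (1 + X) ^ e) + (e : ℚ[X]) * (X ^ (i + 1) * (1 + X) ^ (e - 1)))
      + (e : ℚ[X]) * (((i : ℚ[X]) + 1) * (X ^ (i + 1) * (1 + X) ^ (e - 1))
        + ((e - 1 : ℕ) : ℚ[X]) * (X ^ (i + 2) * (1 + X) ^ (e - 1 - 1))) := by
  rw [th_basis i e, th_add]
  have s1 : th ((i : ℚ[X]) * (X ^ i * (1 + X) ^ e)) = (i : ℚ[X]) * th (X ^ i * (1 + X) ^ e) := by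
    have hc1 : (i : ℚ[X]) = C (i : ℚ) := (map_natCast C i).symm
    rw [hc1, th_C_mul]
  have s2 : th ((e : ℚ[X]) * (X ^ (i + 1) * (1 + X) ^ (e - 1)))
      = (e : ℚ[X]) * th (X ^ (i + 1) * (1 + X) ^ (e - 1)) := by
    have hc2 : (e : ℚ[X]) = C (e : ℚ) := (map_natCast C e).symm
    rw [hc2, th_C_mul]
  rw [s1, s2, th_basis i e, th_basis (i + 1) (e - 1)]
  rw [Nat.cast_add, Nat.cast_one]

theorem alg_e2 {R : Type*} [CommRing R] (x a q I E : R) :
    2 * (1 - x) * (-x * (I * (a * (q * (1 + x) * (1 + x))) + (E + 2) * (a * x * (q * (1 + x))))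
      + (1 - x) * (I * (I * (a * (q * (1 + x) * (1 + x))) + (E + 2) * (a * x * (q * (1 + x))))
        + (E + 2) * ((I + 1) * (a * x * (q * (1 + x))) + (E + 1) * (a * x * x * q)))
      + ((2 * I + (E + 2)) + 1) * (x * (a * (q * (1 + x) * (1 + x)))
        + x * (I * (a * (q * (1 + x) * (1 + x))) + (E + 2) * (a * x * (q * (1 + x))))))
    + 2 * ((2 * I + (E + 2)) + 2) * x * ((1 - x) * (I * (a * (q * (1 + x) * (1 + x)))
        + (E + 2) * (a * x * (q * (1 + x)))) + ((2 * I + (E + 2)) + 1) * x * (a * (q * (1 + x) * (1 + x))))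
    + 2 * (1 - x) * ((1 - x) * (I * (a * (q * (1 + x) * (1 + x)))
        + (E + 2) * (a * x * (q * (1 + x)))) + ((2 * I + (E + 2)) + 1) * x * (a * (q * (1 + x) * (1 + x))))
    + ((2 * I + (E + 2)) + 1) * (1 - x) ^ 2 * (a * (q * (1 + x) * (1 + x)))
    = (2 * I ^ 2 + 2 * I + (2 * I + (E + 2)) + 1) * (a * (q * (1 + x) * (1 + x) * (1 + x) * (1 + x)))
      + 4 * ((2 * I + (E + 2)) * (2 * I + 1) - I * (4 * I + 3)) * (a * x * (q * (1 + x) * (1 + x)))
      + 8 * (E + 2) * ((E + 2) - 1) * (a * x * x * q) := by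
  ring

theorem alg_e0 {R : Type*} [CommRing R] (x a I : R) :
    2 * (1 - x) * (-x * (I * (a * 1) + 0 * (a * x * 1))
      + (1 - x) * (I * (I * (a * 1) + 0 * (a * x * 1)) + 0 * ((I + 1) * (a * x * 1) + 0 * (a * x * x * 1)))
      + ((2 * I + 0) + 1) * (x * (a * 1) + x * (I * (a * 1) + 0 * (a * x * 1))))
    + 2 * ((2 * I + 0) + 2) * x * ((1 - x) * (I * (a * 1) + 0 * (a * x * 1)) + ((2 * I + 0) + 1) * x * (a * 1))
    + 2 * (1 - x) * ((1 - x) * (I * (a * 1) + 0 * (a * x * 1)) + ((2 * I + 0) + 1) * x * (a * 1))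
    + ((2 * I + 0) + 1) * (1 - x) ^ 2 * (a * 1)
    = (2 * I ^ 2 + 2 * I + (2 * I + 0) + 1) * (a * ((1 + x) * (1 + x)))
      + 4 * ((2 * I + 0) * (2 * I + 1) - I * (4 * I + 3)) * (a * x * 1)
      + 8 * 0 * (0 - 1) * (a * x * x * 1) := by
  ring

theorem alg_e1 {R : Type*} [CommRing R] (x a I : R) :
    2 * (1 - x) * (-x * (I * (a * (1 + x)) + 1 * (a * x * 1))
      + (1 - x) * (I * (I * (a * (1 + x)) + 1 * (a * x * 1)) + 1 * ((I + 1) * (a * x * 1) + 0 * (a * x * x * 1)))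
      + ((2 * I + 1) + 1) * (x * (a * (1 + x)) + x * (I * (a * (1 + x)) + 1 * (a * x * 1))))
    + 2 * ((2 * I + 1) + 2) * x * ((1 - x) * (I * (a * (1 + x)) + 1 * (a * x * 1)) + ((2 * I + 1) + 1) * x * (a * (1 + x)))
    + 2 * (1 - x) * ((1 - x) * (I * (a * (1 + x)) + 1 * (a * x * 1)) + ((2 * I + 1) + 1) * x * (a * (1 + x)))
    + ((2 * I + 1) + 1) * (1 - x) ^ 2 * (a * (1 + x))
    = (2 * I ^ 2 + 2 * I + (2 * I + 1) + 1) * (a * ((1 + x) * (1 + x) * (1 + x)))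
      + 4 * ((2 * I + 1) * (2 * I + 1) - I * (4 * I + 3)) * (a * x * (1 + x))
      + 8 * 1 * (1 - 1) * (a * x * x * 1) := by
  ring

theorem T2_expand (n i e : ℕ) : T2 n (X ^ i * (1 + X) ^ e) =
    2 * (1 - X) * (-X * ((i : ℚ[X]) * (X ^ i * (1 + X) ^ e) + (e : ℚ[X]) * (X ^ (i + 1) * (1 + X) ^ (e - 1)))
      + (1 - X) * ((i : ℚ[X]) * ((i : ℚ[X]) * (X ^ i * (1 + X) ^ e)
            + (e : ℚ[X]) * (X ^ (i + 1) * (1 + X) ^ (e - 1)))
        + (e : ℚ[X]) * (((i : ℚ[X]) + 1) * (X ^ (i + 1) * (1 + X) ^ (e - 1))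
          + ((e - 1 : ℕ) : ℚ[X]) * (X ^ (i + 2) * (1 + X) ^ (e - 1 - 1))))
      + ((n : ℚ[X]) + 1) * (X * (X ^ i * (1 + X) ^ e)
        + X * ((i : ℚ[X]) * (X ^ i * (1 + X) ^ e) + (e : ℚ[X]) * (X ^ (i + 1) * (1 + X) ^ (e - 1)))))
    + 2 * ((n : ℚ[X]) + 2) * X * ((1 - X) * ((i : ℚ[X]) * (X ^ i * (1 + X) ^ e)
        + (e : ℚ[X]) * (X ^ (i + 1) * (1 + X) ^ (e - 1))) + ((n : ℚ[X]) + 1) * X * (X ^ i * (1 + X) ^ e))
    + 2 * (1 - X) * ((1 - X) * ((i : ℚ[X]) * (X ^ i * (1 + X) ^ e)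
        + (e : ℚ[X]) * (X ^ (i + 1) * (1 + X) ^ (e - 1))) + ((n : ℚ[X]) + 1) * X * (X ^ i * (1 + X) ^ e))
    + ((n : ℚ[X]) + 1) * (1 - X) ^ 2 * (X ^ i * (1 + X) ^ e) := by
  unfold T2
  rw [Lam_th, th_th_basis, Lam, th_basis]

theorem T2_basis (n i e : ℕ) (h : n = 2 * i + e) :
    T2 n (X ^ i * (1 + X) ^ e) =
      C (2 * (i : ℚ) ^ 2 + 2 * i + n + 1) * (X ^ i * (1 + X) ^ (e + 2))
      + C (4 * ((n : ℚ) * (2 * i + 1) - i * (4 * i + 3))) * (X ^ (i + 1) * (1 + X) ^ e)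
      + C (8 * (e : ℚ) * ((e : ℚ) - 1)) * (X ^ (i + 2) * (1 + X) ^ (e - 2)) := by
  have hn : (n : ℚ[X]) = 2 * i + e := by
    rw [h, Nat.cast_add, Nat.cast_mul]
    rfl
  have c1 : (C (2 * (i : ℚ) ^ 2 + 2 * i + n + 1) : ℚ[X]) = 2 * (i : ℚ[X]) ^ 2 + 2 * i + n + 1 := by
    simp only [map_add, map_mul, map_natCast, map_ofNat, map_one, map_pow]
  have c2 : (C (4 * ((n : ℚ) * (2 * i + 1) - i * (4 * i + 3))) : ℚ[X])
      = 4 * ((n : ℚ[X]) * (2 * i + 1) - i * (4 * i + 3)) := by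
    simp only [map_add, map_sub, map_mul, map_natCast, map_ofNat, map_one]
  have c3 : (C (8 * (e : ℚ) * ((e : ℚ) - 1)) : ℚ[X]) = 8 * (e : ℚ[X]) * ((e : ℚ[X]) - 1) := by
    simp only [map_sub, map_mul, map_natCast, map_ofNat, map_one]
  rw [T2_expand, c1, c2, c3, hn]
  have p1 : (X : ℚ[X]) ^ (i + 1) = X ^ i * X := pow_succ _ _
  have p2 : (X : ℚ[X]) ^ (i + 2) = X ^ i * X * X := by rw [pow_succ, pow_succ]
  rw [p1, p2]
  clear c1 c2 c3 hn p1 p2
  match e with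
  | 0 =>
    have q0 : (1 + X : ℚ[X]) ^ 0 = 1 := pow_zero _
    have q2 : (1 + X : ℚ[X]) ^ (0 + 2) = (1 + X) * (1 + X) := by
      rw [pow_succ, pow_succ, pow_zero, one_mul]
    have e1 : 0 - 1 = 0 := rfl
    have e2 : 0 - 2 = 0 := rfl
    rw [e1, q2, q0, Nat.cast_zero]
    exact alg_e0 X (X ^ i) (i : ℚ[X])
  | 1 =>
    have q0 : (1 + X : ℚ[X]) ^ 0 = 1 := pow_zero _
    have q1 : (1 + X : ℚ[X]) ^ 1 = (1 + X) := pow_one _
    have q3 : (1 + X : ℚ[X]) ^ (1 + 2) = (1 + X) * (1 + X) * (1 + X) := by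
      rw [pow_succ, pow_succ, pow_one]
    have e1 : 1 - 1 = 0 := rfl
    have e1' : 0 - 1 = 0 := rfl
    have e2 : 1 - 2 = 0 := rfl
    rw [e1, q3, q1, q0, Nat.cast_zero, Nat.cast_one]
    exact alg_e1 X (X ^ i) (i : ℚ[X])
  | e + 2 =>
    have e1 : e + 2 - 1 = e + 1 := rfl
    have e2 : e + 2 - 1 - 1 = e := rfl
    have e3 : e + 2 - 2 = e := rfl
    rw [e2, e1, e3]
    have p3 : (1 + X : ℚ[X]) ^ (e + 1) = (1 + X) ^ e * (1 + X) := pow_succ _ _
    have p4 : (1 + X : ℚ[X]) ^ (e + 2) = (1 + X) ^ e * (1 + X) * (1 + X) := by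
      rw [pow_succ, pow_succ]
    have p5 : (1 + X : ℚ[X]) ^ (e + 2 + 2) = (1 + X) ^ e * (1 + X) * (1 + X) * (1 + X) * (1 + X) := by
      rw [pow_succ, pow_succ, pow_succ, pow_succ]
    have c4 : ((e + 2 : ℕ) : ℚ[X]) = (e : ℚ[X]) + 2 := by
      rw [Nat.cast_add]
      rfl
    have c5 : ((e + 1 : ℕ) : ℚ[X]) = (e : ℚ[X]) + 1 := by
      rw [Nat.cast_add, Nat.cast_one]
    rw [p5, p4, p3, c4, c5]
    exact alg_e2 X (X ^ i) ((1 + X) ^ e) (i : ℚ[X]) (e : ℚ[X])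

/-- basis polynomials -/
noncomputable def bas (n i : ℕ) : ℚ[X] := X ^ i * (1 + X) ^ (n - 2 * i)

/-- the polynomial with given gamma coefficients -/
noncomputable def GP (n M : ℕ) : ℚ[X] := ∑ i ∈ range M, C (gam n i) * bas n i

theorem GP_stable (n M : ℕ) (h : n < 2 * M) : GP n (M + 1) = GP n M := by
  unfold GP
  rw [Finset.sum_range_succ, gam_zero_of_lt n M h]
  simp

theorem GP_eq (n M : ℕ) (h : n / 2 + 1 ≤ M) : GP n M = GP n (n / 2 + 1) := by
  induction M, h using Nat.le_induction with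
  | base => rfl
  | succ M hM ih =>
    rw [GP_stable n M (by omega), ih]

theorem T1_add (n : ℕ) (p q : ℚ[X]) : T1 n (p + q) = T1 n p + T1 n q := by
  unfold T1
  rw [th_add]
  ring

theorem T1_C_mul (n : ℕ) (c : ℚ) (q : ℚ[X]) : T1 n (C c * q) = C c * T1 n q := by
  unfold T1
  rw [th_C_mul]
  ring

theorem Lam_add (n : ℕ) (p q : ℚ[X]) : Lam n (p + q) = Lam n p + Lam n q := by
  unfold Lam
  rw [th_add]
  ring

theorem Lam_C_mul (n : ℕ) (c : ℚ) (q : ℚ[X]) : Lam n (C c * q) = C c * Lam n q := by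
  unfold Lam
  rw [th_C_mul]
  ring

theorem T2_add (n : ℕ) (p q : ℚ[X]) : T2 n (p + q) = T2 n p + T2 n q := by
  unfold T2
  rw [Lam_add, th_add]
  ring

theorem T2_C_mul (n : ℕ) (c : ℚ) (q : ℚ[X]) : T2 n (C c * q) = C c * T2 n q := by
  unfold T2
  rw [Lam_C_mul, th_C_mul]
  ring

theorem T1_zero (n : ℕ) : T1 n 0 = 0 := by
  unfold T1 th
  simp

theorem T2_zero (n : ℕ) : T2 n 0 = 0 := by
  unfold T2 Lam th
  simp

theorem T1_sum (n M : ℕ) (c : ℕ → ℚ) (b : ℕ → ℚ[X]) :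
    T1 n (∑ i ∈ range M, C (c i) * b i) = ∑ i ∈ range M, C (c i) * T1 n (b i) := by
  induction M with
  | zero => simp [T1_zero]
  | succ M ih => rw [Finset.sum_range_succ, Finset.sum_range_succ, T1_add, ih, T1_C_mul]

theorem T2_sum (n M : ℕ) (c : ℕ → ℚ) (b : ℕ → ℚ[X]) :
    T2 n (∑ i ∈ range M, C (c i) * b i) = ∑ i ∈ range M, C (c i) * T2 n (b i) := by
  induction M with
  | zero => simp [T2_zero]
  | succ M ih => rw [Finset.sum_range_succ, Finset.sum_range_succ, T2_add, ih, T2_C_mul]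

theorem shift1 (M : ℕ) (c : ℕ → ℚ) (b : ℕ → ℚ[X]) :
    ∑ i ∈ range M, C (c i) * b (i + 1)
      = ∑ i ∈ range (M + 1), C (if 1 ≤ i then c (i - 1) else 0) * b i := by
  rw [Finset.sum_range_succ']
  simp

theorem shift2 (M : ℕ) (c : ℕ → ℚ) (b : ℕ → ℚ[X]) :
    ∑ i ∈ range M, C (c i) * b (i + 2)
      = ∑ i ∈ range (M + 2), C (if 2 ≤ i then c (i - 2) else 0) * b i := by
  rw [Finset.sum_range_succ', Finset.sum_range_succ']
  simp

set_option maxHeartbeats 4000000 in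
theorem GP_rec (n : ℕ) : C ((n : ℚ) + 2) * GP (n + 2) (n + 5) = T1 n (GP (n + 1) (n + 5)) + T2 n (GP n (n + 5)) := by
  have hA : T1 n (GP (n + 1) (n + 5)) =
      ∑ i ∈ range (n + 5), C ((2 * i + 1) * gam (n + 1) i
        + (if 1 ≤ i then 4 * ((n : ℚ) + 3 - 2 * i) * gam (n + 1) (i - 1) else 0)) * bas (n + 2) i := by
    have h0 : GP (n + 1) (n + 4 + 1) = GP (n + 1) (n + 4) := GP_stable (n + 1) (n + 4) (by omega)
    rw [h0]
    unfold GP
    rw [T1_sum]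
    have h1 : ∀ i ∈ range (n + 4), C (gam (n + 1) i) * T1 n (bas (n + 1) i)
        = C ((2 * i + 1) * gam (n + 1) i) * bas (n + 2) i
          + C (4 * ((n : ℚ) + 1 - 2 * i) * gam (n + 1) i) * bas (n + 2) (i + 1) := by
      intro i _
      by_cases hi : 2 * i ≤ n + 1
      · unfold bas
        rw [T1_basis n i (n + 1 - 2 * i) (by omega)]
        have e1 : n + 1 - 2 * i + 1 = n + 2 - 2 * i := by omega
        have e2 : n + 1 - 2 * i - 1 = n + 2 - 2 * (i + 1) := by omega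
        have e3 : ((n + 1 - 2 * i : ℕ) : ℚ) = (n : ℚ) + 1 - 2 * i := by
          rw [Nat.cast_sub hi]
          push_cast
          ring
        rw [e1, e2, e3]
        simp only [C_mul]
        ring
      · rw [gam_zero_of_lt (n + 1) i (by omega)]
        simp
    rw [Finset.sum_congr rfl h1, Finset.sum_add_distrib,
      shift1 (n + 4) (fun i => 4 * ((n : ℚ) + 1 - 2 * i) * gam (n + 1) i) (bas (n + 2))]
    have h2 : ∑ i ∈ range (n + 4), C ((2 * i + 1) * gam (n + 1) i) * bas (n + 2) i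
        = ∑ i ∈ range (n + 4 + 1), C ((2 * i + 1) * gam (n + 1) i) * bas (n + 2) i := by
      rw [Finset.sum_range_succ _ (n + 4), gam_zero_of_lt (n + 1) (n + 4) (by omega)]
      simp
    rw [h2, ← Finset.sum_add_distrib]
    apply Finset.sum_congr rfl
    intro i _
    rw [← add_mul, ← C_add]
    congr 2
    congr 1
    split_ifs with hi
    · have e4 : ((i - 1 : ℕ) : ℚ) = (i : ℚ) - 1 := by
        rw [Nat.cast_sub hi]
        simp
      simp only [e4]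
      ring
    · rfl
  have hB : T2 n (GP n (n + 5)) =
      ∑ i ∈ range (n + 5), C ((2 * (i : ℚ) ^ 2 + 2 * i + n + 1) * gam n i
        + (if 1 ≤ i then 4 * ((n : ℚ) * (2 * i - 1) - (i - 1) * (4 * i - 1)) * gam n (i - 1) else 0)
        + (if 2 ≤ i then 8 * ((n : ℚ) + 4 - 2 * i) * ((n : ℚ) + 3 - 2 * i) * gam n (i - 2) else 0))
          * bas (n + 2) i := by
    have h0 : GP n (n + 5) = GP n (n + 3) := by
      rw [GP_stable n (n + 4) (by omega), GP_stable n (n + 3) (by omega)]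
    rw [h0]
    unfold GP
    rw [T2_sum]
    have h1 : ∀ i ∈ range (n + 3), C (gam n i) * T2 n (bas n i)
        = C ((2 * (i : ℚ) ^ 2 + 2 * i + n + 1) * gam n i) * bas (n + 2) i
          + C (4 * ((n : ℚ) * (2 * i + 1) - i * (4 * i + 3)) * gam n i) * bas (n + 2) (i + 1)
          + C (8 * ((n : ℚ) - 2 * i) * ((n : ℚ) - 2 * i - 1) * gam n i) * bas (n + 2) (i + 2) := by
      intro i _
      by_cases hi : 2 * i ≤ n
      · unfold bas
        rw [T2_basis n i (n - 2 * i) (by omega)]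
        have e1 : n - 2 * i + 2 = n + 2 - 2 * i := by omega
        have e2 : n + 2 - 2 * (i + 1) = n - 2 * i := by omega
        have e2' : n + 2 - 2 * (i + 2) = n - 2 * i - 2 := by omega
        have e3 : ((n - 2 * i : ℕ) : ℚ) = (n : ℚ) - 2 * i := by
          rw [Nat.cast_sub hi]
          push_cast
          ring
        rw [e1, e2, e2', e3]
        simp only [C_mul]
        ring
      · rw [gam_zero_of_lt n i (by omega)]
        simp
    rw [Finset.sum_congr rfl h1, Finset.sum_add_distrib, Finset.sum_add_distrib,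
      shift1 (n + 3) (fun i => 4 * ((n : ℚ) * (2 * i + 1) - i * (4 * i + 3)) * gam n i) (bas (n + 2)),
      shift2 (n + 3) (fun i => 8 * ((n : ℚ) - 2 * i) * ((n : ℚ) - 2 * i - 1) * gam n i) (bas (n + 2))]
    have h2 : ∑ i ∈ range (n + 3), C ((2 * (i : ℚ) ^ 2 + 2 * i + n + 1) * gam n i) * bas (n + 2) i
        = ∑ i ∈ range (n + 3 + 2), C ((2 * (i : ℚ) ^ 2 + 2 * i + n + 1) * gam n i) * bas (n + 2) i := by
      rw [Finset.sum_range_succ _ (n + 3 + 1), Finset.sum_range_succ _ (n + 3),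
        gam_zero_of_lt n (n + 3) (by omega), gam_zero_of_lt n (n + 3 + 1) (by omega)]
      simp
    have h3 : ∑ i ∈ range (n + 3 + 1), C (if 1 ≤ i then
          (fun i : ℕ => 4 * ((n : ℚ) * (2 * i + 1) - i * (4 * i + 3)) * gam n i) (i - 1) else 0)
            * bas (n + 2) i
        = ∑ i ∈ range (n + 3 + 2), C (if 1 ≤ i then
          (fun i : ℕ => 4 * ((n : ℚ) * (2 * i + 1) - i * (4 * i + 3)) * gam n i) (i - 1) else 0)
            * bas (n + 2) i := by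
      rw [Finset.sum_range_succ _ (n + 3 + 1)]
      have : gam n (n + 3 + 1 - 1) = 0 := gam_zero_of_lt n _ (by omega)
      simp only [this, mul_zero, ite_self, C_0, zero_mul, add_zero]
    rw [h2, h3, ← Finset.sum_add_distrib, ← Finset.sum_add_distrib]
    apply Finset.sum_congr rfl
    intro i _
    rw [← add_mul, ← add_mul, ← C_add, ← C_add]
    congr 2
    congr 1
    · congr 1
      split_ifs with hi
      · have e4 : ((i - 1 : ℕ) : ℚ) = (i : ℚ) - 1 := by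
          rw [Nat.cast_sub hi]
          simp
        simp only [e4]
        ring
      · rfl
    · split_ifs with hi
      · have e4 : ((i - 2 : ℕ) : ℚ) = (i : ℚ) - 2 := by
          rw [Nat.cast_sub hi]
          simp
        simp only [e4]
        ring
      · rfl
  rw [hA, hB, ← Finset.sum_add_distrib]
  unfold GP
  rw [Finset.mul_sum]
  apply Finset.sum_congr rfl
  intro i _
  rw [← mul_assoc, ← C_mul, gam_rec, ← add_mul, ← C_add]
  congr 2
  split_ifs <;> ring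

end Pool.Agent.Y348.GB
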