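import Mathlib
import Pool.Agent.Y348.GB.Poly

set_option autoImplicit false

/-!
The generating function and the conclusion.
-/

namespace Pool.Agent.Y348.GB

open Finset

section series

open PowerSeries

/-- `x d/dx` on power series -/
noncomputable def TH (s : ℚ⟦X⟧) : ℚ⟦X⟧ := X * d⁄dX ℚ s

theorem coeff_TH (s : ℚ⟦X⟧) (m : ℕ) : coeff m (TH s) = (m : ℚ) * coeff m s := by
  unfold TH
  cases m with
  | zero => simp
  | succ m =>
    rw [coeff_succ_X_mul, coeff_derivative]
    push_cast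
    ring

theorem TH_step (k : ℕ) (c g : ℚ⟦X⟧) (h : (1 - X) ^ k * c = g) :
    (1 - X) ^ (k + 1) * TH c = (1 - X) * TH g + (k : ℚ⟦X⟧) * X * g := by
  subst h
  unfold TH
  rw [Derivation.leibniz, Derivation.leibniz_pow]
  have h1 : d⁄dX ℚ (1 - X : ℚ⟦X⟧) = -1 := by
    rw [map_sub]
    simp
  rw [h1]
  cases k with
  | zero => simp
  | succ k =>
    have e1 : k + 1 - 1 = k := rfl
    rw [e1]
    simp only [smul_eq_mul, nsmul_eq_mul]
    ring

/-- the generating function in the level parameter -/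
noncomputable def cs (n : ℕ) : ℚ⟦X⟧ := PowerSeries.mk (fun m => (mc (2 * m + 1) (m ^ 2) n : ℚ))

theorem cs_rec (n : ℕ) : ((n : ℚ⟦X⟧) + 2) * cs (n + 2)
    = (2 * TH (cs (n + 1)) + cs (n + 1)) +
      (2 * TH (TH (cs n)) + 2 * TH (cs n) + ((n : ℚ⟦X⟧) + 1) * cs n) := by
  ext m
  have h2 : (2 : ℚ⟦X⟧) = C (2 : ℚ) := (map_ofNat C 2).symm
  have hn2 : (n : ℚ⟦X⟧) + 2 = C ((n : ℚ) + 2) := by rw [map_add, map_natCast, map_ofNat]
  have hn1 : (n : ℚ⟦X⟧) + 1 = C ((n : ℚ) + 1) := by rw [map_add, map_natCast, map_one]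
  rw [hn2, hn1, h2]
  simp only [LinearMap.map_add, coeff_C_mul, coeff_TH]
  unfold cs
  simp only [coeff_mk]
  have h := mc_rec (2 * m + 1) (m ^ 2) n
  rw [h]
  push_cast
  ring

/-- coercion -/
noncomputable abbrev ph : Polynomial ℚ →+* ℚ⟦X⟧ := Polynomial.coeToPowerSeries.ringHom

theorem ph_X : ph Polynomial.X = X := by
  rw [Polynomial.coeToPowerSeries.ringHom_apply, Polynomial.coe_X]

theorem ph_th (p : Polynomial ℚ) : ph (th p) = TH (ph p) := by
  unfold th TH
  rw [map_mul, ph_X]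
  rw [Polynomial.coeToPowerSeries.ringHom_apply, Polynomial.coeToPowerSeries.ringHom_apply, derivative_coe]

theorem ph_T1 (n : ℕ) (p : Polynomial ℚ) : ph (T1 n p) =
    2 * (1 - X) * TH (ph p) + (2 * ((n : ℚ⟦X⟧) + 2) * X + (1 - X)) * ph p := by
  unfold T1
  simp only [map_add, map_mul, map_sub, map_one, ph_th, ph_X, map_ofNat, map_natCast]

theorem ph_Lam (n : ℕ) (p : Polynomial ℚ) : ph (Lam n p) =
    (1 - X) * TH (ph p) + ((n : ℚ⟦X⟧) + 1) * X * ph p := by
  unfold Lam
  simp only [map_add, map_mul, map_sub, map_one, ph_th, ph_X, map_natCast]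

theorem ph_T2 (n : ℕ) (p : Polynomial ℚ) : ph (T2 n p) =
    2 * (1 - X) * TH (ph (Lam n p)) + 2 * ((n : ℚ⟦X⟧) + 2) * X * ph (Lam n p)
      + 2 * (1 - X) * ph (Lam n p) + ((n : ℚ⟦X⟧) + 1) * (1 - X) ^ 2 * ph p := by
  unfold T2
  simp only [map_add, map_mul, map_sub, map_one, map_pow, ph_th, ph_X, map_natCast, map_ofNat]

theorem cs_step (n : ℕ) (G0 G1 G2 : Polynomial ℚ)
    (h0 : (1 - X) ^ (n + 1) * cs n = ph G0) (h1 : (1 - X) ^ (n + 2) * cs (n + 1) = ph G1)
    (h2 : Polynomial.C ((n : ℚ) + 2) * G2 = T1 n G1 + T2 n G0) :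
    (1 - X) ^ (n + 3) * cs (n + 2) = ph G2 := by
  have a1 := TH_step (n + 2) _ _ h1
  have a0 := TH_step (n + 1) _ _ h0
  have hL : (1 - X) ^ (n + 1 + 1) * TH (cs n) = ph (Lam n G0) := by
    rw [a0, ph_Lam]
    push_cast
    ring
  have a2 := TH_step (n + 2) _ _ hL
  have key : ((n : ℚ⟦X⟧) + 2) * ((1 - X) ^ (n + 3) * cs (n + 2)) = ((n : ℚ⟦X⟧) + 2) * ph G2 := by
    have e2 : ((n : ℚ⟦X⟧) + 2) * ph G2 = ph (T1 n G1) + ph (T2 n G0) := by
      rw [← map_add, ← h2, map_mul]
      congr 1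
      have hC : (Polynomial.C ((n : ℚ) + 2)) = (n : Polynomial ℚ) + 2 := by
        rw [map_add, map_natCast, map_ofNat]
      rw [hC, map_add, map_natCast, map_ofNat]
    rw [e2, ph_T1, ph_T2]
    have e1 : ((n : ℚ⟦X⟧) + 2) * ((1 - X) ^ (n + 3) * cs (n + 2))
        = (1 - X) ^ (n + 3) * (((n : ℚ⟦X⟧) + 2) * cs (n + 2)) := by ring
    rw [e1, cs_rec]
    have b1 : (1 - X) ^ (n + 3) * TH (cs (n + 1)) = (1 - X) * TH (ph G1) + ((n : ℚ⟦X⟧) + 2) * X * ph G1 := by
      have := a1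
      push_cast at this
      exact this
    have b2 : (1 - X) ^ (n + 3) * TH (TH (cs n))
        = (1 - X) * TH (ph (Lam n G0)) + ((n : ℚ⟦X⟧) + 2) * X * ph (Lam n G0) := by
      have := a2
      push_cast at this
      exact this
    have b3 : (1 - X) ^ (n + 3) * TH (cs n) = (1 - X) * ph (Lam n G0) := by
      rw [← hL]
      ring
    have b4 : (1 - X) ^ (n + 3) * cs n = (1 - X) ^ 2 * ph G0 := by
      rw [← h0]
      ring
    have b5 : (1 - X) ^ (n + 3) * cs (n + 1) = (1 - X) * ph G1 := by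
      rw [← h1]
      ring
    linear_combination 2 * b1 + b5 + 2 * b2 + 2 * b3 + ((n : ℚ⟦X⟧) + 1) * b4
  have hne : ((n : ℚ⟦X⟧) + 2) ≠ 0 := by
    intro h
    have := congrArg (coeff 0) h
    have e : (n : ℚ⟦X⟧) + 2 = C ((n : ℚ) + 2) := by rw [map_add, map_natCast, map_ofNat]
    rw [e, coeff_C, if_pos rfl, map_zero] at this
    have : (n : ℚ) + 2 > 0 := by positivity
    linarith
  exact mul_left_cancel₀ hne key

theorem mk_choose (n : ℕ) : (1 - X) ^ (n + 1) * (PowerSeries.mk (fun m => ((n + m).choose n : ℚ)) : ℚ⟦X⟧) = 1 := by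
  rw [mul_comm]
  exact mk_add_choose_mul_one_sub_pow_eq_one ℚ n

theorem gam_0_0 : gam 0 0 = 1 := by
  rw [gam]
  simp

theorem gam_1_0 : gam 1 0 = 1 := by
  rw [gam]
  simp

theorem cs_zero : (1 - X) ^ (0 + 1) * cs 0 = ph (GP 0 (0 / 2 + 1)) := by
  have h := mk_choose 0
  have h1 : cs 0 = (PowerSeries.mk (fun m => ((0 + m).choose 0 : ℚ)) : ℚ⟦X⟧) := by
    unfold cs
    ext m
    simp [mc_zero]
  rw [h1, h]
  have h2 : GP 0 (0 / 2 + 1) = 1 := by
    unfold GP bas
    simp [gam_0_0]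
  rw [h2, map_one]

theorem cs_one : (1 - X) ^ (1 + 1) * cs 1 = ph (GP 1 (1 / 2 + 1)) := by
  have h := mk_choose 1
  have h2 : GP 1 (1 / 2 + 1) = 1 + Polynomial.X := by
    unfold GP bas
    simp [gam_1_0]
  rw [h2, map_add, map_one, ph_X]
  have h1 : cs 1 = (1 + X) * (PowerSeries.mk (fun m => ((1 + m).choose 1 : ℚ)) : ℚ⟦X⟧) := by
    unfold cs
    ext m
    rw [add_mul, one_mul, map_add]
    cases m with
    | zero => simp [mc_one]
    | succ m =>
      rw [coeff_succ_X_mul]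
      simp only [coeff_mk, mc_one, Nat.choose_one_right]
      push_cast
      ring
  rw [h1]
  linear_combination (1 + X) * h

theorem cs_eq : ∀ n : ℕ, (1 - X) ^ (n + 1) * cs n = ph (GP n (n / 2 + 1)) := by
  have h : ∀ n : ℕ, (1 - X) ^ (n + 1) * cs n = ph (GP n (n / 2 + 1)) ∧
      (1 - X) ^ (n + 2) * cs (n + 1) = ph (GP (n + 1) ((n + 1) / 2 + 1)) := by
    intro n
    induction n with
    | zero => exact ⟨cs_zero, cs_one⟩
    | succ n ih =>
      refine ⟨ih.2, ?_⟩
      apply cs_step n _ _ _ ih.1 ih.2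
      have hg := GP_rec n
      rw [GP_eq (n + 2) (n + 5) (by omega), GP_eq (n + 1) (n + 5) (by omega),
        GP_eq n (n + 5) (by omega)] at hg
      exact hg
  exact fun n => (h n).1

theorem X_pow_eq (n d : ℕ) (hd : d ≤ n) :
    (1 - X) ^ (n + 1) * (PowerSeries.mk (fun m => ((n + m - d).choose n : ℚ)) : ℚ⟦X⟧) = X ^ d := by
  have h1 : (PowerSeries.mk (fun m => ((n + m - d).choose n : ℚ)) : ℚ⟦X⟧)
      = X ^ d * (PowerSeries.mk (fun m => ((n + m).choose n : ℚ)) : ℚ⟦X⟧) := by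
    ext m
    rw [coeff_X_pow_mul', coeff_mk]
    split_ifs with h
    · rw [coeff_mk]
      have : n + m - d = n + (m - d) := by omega
      rw [this]
    · rw [Nat.choose_eq_zero_of_lt (by omega)]
      simp
  rw [h1]
  have h := mk_choose n
  linear_combination (X ^ d) * h

end series

theorem desB_le {n : ℕ} (σ : Equiv.Perm (Fin n)) (ε : Fin n → Bool) : desB σ ε ≤ n := by
  cases n with
  | zero =>
    unfold desB
    simp
  | succ N =>
    rw [desB_eq]
    unfold desN
    have h1 : e0 ε ≤ 1 := by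
      unfold e0
      split_ifs <;> simp
    have h2 : ∑ i : Fin N, dd σ ε i ≤ ∑ _i : Fin N, 1 := by
      apply Finset.sum_le_sum
      intro i _
      unfold dd
      split_ifs <;> simp
    simp only [Finset.sum_const, Finset.card_univ, Fintype.card_fin, smul_eq_mul, mul_one] at h2
    omega

open Classical in
theorem poly_eq (n : ℕ) :
    ∑ w ∈ (Finset.univ : Finset (Equiv.Perm (Fin n) × (Fin n → Bool))).filter
        (fun w => SInv w.1 w.2), (Polynomial.X : Polynomial ℚ) ^ (desB w.1 w.2)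
      = GP n (n / 2 + 1) := by
  have hinj : Function.Injective ph := by
    intro p q h
    rw [Polynomial.coeToPowerSeries.ringHom_apply, Polynomial.coeToPowerSeries.ringHom_apply] at h
    exact Polynomial.coe_injective ℚ h
  apply hinj
  rw [← cs_eq, map_sum]
  have h1 : ∀ w ∈ (Finset.univ : Finset (Equiv.Perm (Fin n) × (Fin n → Bool))).filter
        (fun w => SInv w.1 w.2), ph ((Polynomial.X : Polynomial ℚ) ^ (desB w.1 w.2))
      = (1 - PowerSeries.X) ^ (n + 1) *
        (PowerSeries.mk (fun m => ((n + m - desB w.1 w.2).choose n : ℚ)) : PowerSeries ℚ) := by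
    intro w _
    rw [map_pow, ph_X, X_pow_eq n _ (desB_le w.1 w.2)]
  rw [Finset.sum_congr rfl h1, ← Finset.mul_sum]
  congr 1
  ext m
  rw [map_sum]
  unfold cs
  simp only [PowerSeries.coeff_mk]
  rw [← count_identity m n]
  push_cast
  rfl

open Polynomial in
theorem integrality (n M : ℕ) (γ : ℕ → ℚ) (P : ℤ[X])
    (h : P.map (Int.castRingHom ℚ) = ∑ i ∈ range M, C (γ i) * (X ^ i * (1 + X) ^ (n - 2 * i))) :
    ∀ i < M, ∃ z : ℤ, γ i = z := by
  intro i
  induction i using Nat.strong_induction_on with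
  | _ i ih =>
    intro hi
    have hc := congrArg (fun p => coeff p i) h
    simp only [coeff_map, finsetSum_coeff, coeff_C_mul] at hc
    rw [← Finset.add_sum_erase _ _ (Finset.mem_range.mpr hi)] at hc
    have hdiag : (X ^ i * (1 + X) ^ (n - 2 * i) : ℚ[X]).coeff i = 1 := by
      rw [coeff_X_pow_mul', if_pos le_rfl, Nat.sub_self, coeff_one_add_X_pow]
      simp
    rw [hdiag, mul_one] at hc
    have hrest : ∑ j ∈ (range M).erase i, γ j * (X ^ j * (1 + X) ^ (n - 2 * j) : ℚ[X]).coeff i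
        ∈ (Int.castRingHom ℚ).range := by
      apply Subring.sum_mem
      intro j hj
      rw [Finset.mem_erase, Finset.mem_range] at hj
      rcases lt_or_ge i j with hij | hij
      · rw [coeff_X_pow_mul', if_neg (by omega), mul_zero]
        exact Subring.zero_mem _
      · obtain ⟨z, hz⟩ := ih j (by omega) hj.2
        rw [hz, coeff_X_pow_mul', if_pos hij, coeff_one_add_X_pow]
        apply Subring.mul_mem
        · exact ⟨z, by simp⟩
        · exact ⟨((n - 2 * j).choose (i - j) : ℤ), by simp⟩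
    obtain ⟨z, hz⟩ := hrest
    refine ⟨P.coeff i - z, ?_⟩
    have hz' : (z : ℚ) = ∑ j ∈ (range M).erase i, γ j * (X ^ j * (1 + X) ^ (n - 2 * j) : ℚ[X]).coeff i := by
      rw [← hz]
      simp
    push_cast
    rw [hz']
    have hc' : (P.coeff i : ℚ) = γ i + ∑ j ∈ (range M).erase i,
        γ j * (X ^ j * (1 + X) ^ (n - 2 * j) : ℚ[X]).coeff i := by
      rw [← hc]
      simp
    rw [hc']
    ring

theorem gamma_final (n : ℕ) : ∃ γ : ℕ → ℕ,
    (∑ w ∈ (Finset.univ : Finset (Equiv.Perm (Fin n) × (Fin n → Bool))).filter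
        (fun w => ∀ i : Fin n, w.1 (w.1 i) = i ∧ w.2 (w.1 i) = w.2 i),
      (Polynomial.X : Polynomial ℤ) ^ (desB w.1 w.2))
    = ∑ i ∈ Finset.range (n / 2 + 1),
        Polynomial.C (γ i : ℤ) * Polynomial.X ^ i * (1 + Polynomial.X) ^ (n - 2 * i) := by
  classical
  set P : Polynomial ℤ := (∑ w ∈ (Finset.univ : Finset (Equiv.Perm (Fin n) × (Fin n → Bool))).filter
        (fun w => ∀ i : Fin n, w.1 (w.1 i) = i ∧ w.2 (w.1 i) = w.2 i),
      (Polynomial.X : Polynomial ℤ) ^ (desB w.1 w.2)) with hP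
  have hmap : P.map (Int.castRingHom ℚ) = ∑ i ∈ range (n / 2 + 1),
      Polynomial.C (gam n i) * (Polynomial.X ^ i * (1 + Polynomial.X) ^ (n - 2 * i)) := by
    have h1 : P.map (Int.castRingHom ℚ) =
        ∑ w ∈ (Finset.univ : Finset (Equiv.Perm (Fin n) × (Fin n → Bool))).filter
        (fun w => SInv w.1 w.2), (Polynomial.X : Polynomial ℚ) ^ (desB w.1 w.2) := by
      rw [hP, Polynomial.map_sum]
      apply Finset.sum_congr
      · ext w
        rw [Finset.mem_filter, Finset.mem_filter]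
        rfl
      · intro w _
        rw [Polynomial.map_pow, Polynomial.map_X]
    rw [h1, poly_eq]
    rfl
  have hint := integrality n (n / 2 + 1) (gam n) P hmap
  have hnat : ∀ i, ∃ k : ℕ, i < n / 2 + 1 → gam n i = k := by
    intro i
    by_cases hi : i < n / 2 + 1
    · obtain ⟨z, hz⟩ := hint i hi
      have hz0 : 0 ≤ z := by
        have := gam_nonneg n i
        rw [hz] at this
        exact_mod_cast this
      refine ⟨z.toNat, fun _ => ?_⟩
      rw [hz]
      have : ((z.toNat : ℤ) : ℚ) = z := by rw [Int.toNat_of_nonneg hz0]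
      exact_mod_cast this.symm
    · exact ⟨0, fun h => absurd h hi⟩
  choose γ hγ using hnat
  refine ⟨γ, ?_⟩
  have hinj := Polynomial.map_injective (Int.castRingHom ℚ) (RingHom.injective_int _)
  apply hinj
  rw [hmap, Polynomial.map_sum]
  apply Finset.sum_congr rfl
  intro i hi
  rw [Finset.mem_range] at hi
  rw [Polynomial.map_mul, Polynomial.map_mul, Polynomial.map_pow, Polynomial.map_pow,
    Polynomial.map_add, Polynomial.map_one, Polynomial.map_X, Polynomial.map_C, hγ i hi, mul_assoc]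
  simp

end Pool.Agent.Y348.GB
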